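import Mathlib

/-!
# Median orders of a finite digraph

Positions are counted from the end: `T v` is the number of vertices after `v`.
-/

namespace Pool.Agent.Helper76.SNC

open Finset

set_option linter.unusedSectionVars false

variable {V : Type*} [Fintype V] [DecidableEq V]

open Classical in
/-- the arc indicator -/
noncomputable def ar (D : V → V → Prop) (u v : V) : ℝ := if D u v then 1 else 0

lemma ar_nonneg (D : V → V → Prop) (u v : V) : 0 ≤ ar D u v := by
  unfold ar; split_ifs <;> norm_num

lemma ar_le_one (D : V → V → Prop) (u v : V) : ar D u v ≤ 1 := by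
  unfold ar; split_ifs <;> norm_num

open Classical in
/-- number of arcs that go from a larger value of `r` to a smaller value of `r` -/
noncomputable def fwd (D : V → V → Prop) (r : V → ℕ) : ℕ :=
  ((univ : Finset (V × V)).filter (fun q => D q.1 q.2 ∧ r q.2 < r q.1)).card

lemma fwd_le (D : V → V → Prop) (r : V → ℕ) : fwd D r ≤ Fintype.card (V × V) := by
  unfold fwd
  exact card_le_univ _

/-- `r` is a median order. -/
def IsMedian (D : V → V → Prop) (r : V → ℕ) : Prop :=
  Function.Injective r ∧ ∀ s : V → ℕ, Function.Injective s → fwd D s ≤ fwd D r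

lemma exists_median (D : V → V → Prop) : ∃ r : V → ℕ, IsMedian D r := by
  classical
  let S : Set ℕ := {k | ∃ r : V → ℕ, Function.Injective r ∧ fwd D r = k}
  have hne : S.Nonempty := by
    refine ⟨_, fun v => (Fintype.equivFin V v : ℕ), ?_, rfl⟩
    intro u v h
    exact (Fintype.equivFin V).injective (Fin.ext h)
  have hbd : BddAbove S := by
    refine ⟨Fintype.card (V × V), ?_⟩
    rintro k ⟨r, -, rfl⟩
    exact fwd_le D r
  obtain ⟨r, hr, hr2⟩ := Nat.sSup_mem hne hbd
  refine ⟨r, hr, ?_⟩
  intro s hs
  rw [hr2]
  exact le_csSup hbd ⟨s, hs, rfl⟩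

/-- the compressed order -/
noncomputable def cmp (r : V → ℕ) (v : V) : ℕ := ((univ : Finset V).filter (fun u => r u < r v)).card

lemma cmp_lt_iff (r : V → ℕ) (u v : V) : cmp r u < cmp r v ↔ r u < r v := by
  unfold cmp
  constructor
  · intro h
    by_contra hc
    push Not at hc
    have : ((univ : Finset V).filter (fun w => r w < r v)).card ≤
        ((univ : Finset V).filter (fun w => r w < r u)).card := by
      apply card_le_card
      intro w hw
      simp only [mem_filter, mem_univ, true_and] at hw ⊢
      omega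
    omega
  · intro h
    apply card_lt_card
    refine ⟨?_, ?_⟩
    · intro w hw
      simp only [mem_filter, mem_univ, true_and] at hw ⊢
      omega
    · intro hsub
      have := hsub (show u ∈ _ by simp [h])
      simp at this

lemma cmp_inj {r : V → ℕ} (hr : Function.Injective r) : Function.Injective (cmp r) := by
  intro u v h
  apply hr
  by_contra hc
  rcases lt_or_gt_of_ne hc with h1 | h1
  · have := (cmp_lt_iff r u v).2 h1
    omega
  · have := (cmp_lt_iff r v u).2 h1
    omega

lemma cmp_lt_card (r : V → ℕ) (v : V) : cmp r v < Fintype.card V := by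
  unfold cmp
  rw [← card_univ]
  apply card_lt_card
  refine ⟨subset_univ _, ?_⟩
  intro h
  have := h (mem_univ v)
  simp at this

lemma median_cmp {D : V → V → Prop} {r : V → ℕ} (hr : IsMedian D r) : IsMedian D (cmp r) := by
  refine ⟨cmp_inj hr.1, ?_⟩
  intro s hs
  have h1 := hr.2 s hs
  have h2 : fwd D (cmp r) = fwd D r := by
    unfold fwd
    congr 1
    ext q
    simp only [mem_filter, mem_univ, true_and, cmp_lt_iff]
  omega

/-- everything we use about the order -/
structure Good (D : V → V → Prop) (T : V → ℕ) : Prop where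
  inj : Function.Injective T
  lt : ∀ v, T v < Fintype.card V
  med : ∀ s : V → ℕ, Function.Injective s → fwd D s ≤ fwd D T

lemma exists_good (D : V → V → Prop) : ∃ T : V → ℕ, Good D T := by
  obtain ⟨r, hr⟩ := exists_median D
  have h := median_cmp hr
  exact ⟨cmp r, ⟨h.1, cmp_lt_card r, h.2⟩⟩

namespace Good

variable {D : V → V → Prop} {T : V → ℕ}

lemma image_univ (h : Good D T) : (univ : Finset V).image T = range (Fintype.card V) := by
  apply eq_of_subset_of_card_le
  · intro t ht
    simp only [mem_image, mem_univ, true_and] at ht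
    obtain ⟨v, rfl⟩ := ht
    exact mem_range.2 (h.lt v)
  · rw [card_image_of_injective _ h.inj, card_range, card_univ]

lemma exists_eq (h : Good D T) {t : ℕ} (ht : t < Fintype.card V) : ∃ v, T v = t := by
  have : t ∈ (univ : Finset V).image T := by rw [h.image_univ]; exact mem_range.2 ht
  simpa using this

/-- number of vertices in a window of positions -/
lemma card_Ico (h : Good D T) {s t : ℕ} (ht : t ≤ Fintype.card V) :
    ((univ : Finset V).filter (fun v => s ≤ T v ∧ T v < t)).card = t - s := by
  rw [← card_image_of_injective _ h.inj]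
  have : ((univ : Finset V).filter (fun v => s ≤ T v ∧ T v < t)).image T = Finset.Ico s t := by
    ext k
    simp only [mem_image, mem_filter, mem_univ, true_and, Finset.mem_Ico]
    constructor
    · rintro ⟨v, hv, rfl⟩
      exact hv
    · intro hk
      obtain ⟨v, rfl⟩ := h.exists_eq (lt_of_lt_of_le hk.2 ht)
      exact ⟨v, hk, rfl⟩
  rw [this, Nat.card_Ico]

lemma card_lt (h : Good D T) {t : ℕ} (ht : t ≤ Fintype.card V) :
    ((univ : Finset V).filter (fun v => T v < t)).card = t := by
  have := h.card_Ico (s := 0) ht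
  simpa using this

lemma card_lt_le (h : Good D T) (t : ℕ) :
    ((univ : Finset V).filter (fun v => T v < t)).card ≤ t := by
  rcases le_total t (Fintype.card V) with h1 | h1
  · exact (h.card_lt h1).le
  · exact (card_le_univ _).trans h1

lemma card_Ico_le (h : Good D T) (s t : ℕ) :
    ((univ : Finset V).filter (fun v => s ≤ T v ∧ T v < t)).card ≤ t - s := by
  rcases le_total t (Fintype.card V) with h1 | h1
  · exact (h.card_Ico h1).le
  · have h2 : ((univ : Finset V).filter (fun v => s ≤ T v ∧ T v < t)) =
        ((univ : Finset V).filter (fun v => s ≤ T v ∧ T v < Fintype.card V)) := by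
      ext v
      have := h.lt v
      simp only [mem_filter, mem_univ, true_and]
      omega
    rw [h2, h.card_Ico le_rfl]
    omega

/-- The block move: moving `Z` to the front of the last `c` positions gains nothing. -/
theorem block (h : Good D T) (c : ℕ) (Z : Finset V) (hZ : ∀ z ∈ Z, T z < c) :
    ∑ z ∈ Z, ∑ x ∈ (univ : Finset V).filter (fun x => x ∉ Z ∧ T z < T x ∧ T x < c), ar D z x ≤
    ∑ z ∈ Z, ∑ x ∈ (univ : Finset V).filter (fun x => x ∉ Z ∧ T z < T x ∧ T x < c), ar D x z := by
  classical
  let N := Fintype.card V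
  let s : V → ℕ := fun v => if c ≤ T v then T v + 2 * N else if v ∈ Z then T v + N else T v
  have hlt := h.lt
  have hs : Function.Injective s := by
    intro u v huv
    apply h.inj
    have h1 := hlt u
    have h2 := hlt v
    simp only [s] at huv
    have hN : N = Fintype.card V := rfl
    split_ifs at huv <;> omega
  have hmed := h.med s hs
  -- express both counts
  have key : ∀ q : V × V, s q.2 < s q.1 ↔
      ((T q.2 < T q.1 ∧ ¬ (q.1 ∉ Z ∧ q.2 ∈ Z ∧ T q.2 < T q.1 ∧ T q.1 < c)) ∨
        (q.1 ∈ Z ∧ q.2 ∉ Z ∧ T q.1 < T q.2 ∧ T q.2 < c)) := by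
    rintro ⟨u, v⟩
    have h1 := hlt u
    have h2 := hlt v
    have h3 : u ∈ Z → T u < c := hZ u
    have h4 : v ∈ Z → T v < c := hZ v
    have hN : N = Fintype.card V := rfl
    have hsu : (c ≤ T u ∧ u ∉ Z ∧ s u = T u + 2 * N) ∨ (T u < c ∧ u ∈ Z ∧ s u = T u + N) ∨
        (T u < c ∧ u ∉ Z ∧ s u = T u) := by
      simp only [s]
      by_cases hu : u ∈ Z
      · have h5 := h3 hu
        right; left
        refine ⟨h5, hu, ?_⟩
        rw [if_neg (by omega), if_pos hu]
      · by_cases h6 : c ≤ T u
        · left
          exact ⟨h6, hu, by rw [if_pos h6]⟩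
        · right; right
          exact ⟨by omega, hu, by rw [if_neg h6, if_neg hu]⟩
    have hsv : (c ≤ T v ∧ v ∉ Z ∧ s v = T v + 2 * N) ∨ (T v < c ∧ v ∈ Z ∧ s v = T v + N) ∨
        (T v < c ∧ v ∉ Z ∧ s v = T v) := by
      simp only [s]
      by_cases hu : v ∈ Z
      · have h5 := h4 hu
        right; left
        refine ⟨h5, hu, ?_⟩
        rw [if_neg (by omega), if_pos hu]
      · by_cases h6 : c ≤ T v
        · left
          exact ⟨h6, hu, by rw [if_pos h6]⟩
        · right; right
          exact ⟨by omega, hu, by rw [if_neg h6, if_neg hu]⟩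
    have h7 : u ∈ Z → v ∉ Z → T u ≠ T v := by
      intro hu hv he
      rw [h.inj he] at hu
      exact hv hu
    show s v < s u ↔ ((T v < T u ∧ ¬ (u ∉ Z ∧ v ∈ Z ∧ T v < T u ∧ T u < c)) ∨
        (u ∈ Z ∧ v ∉ Z ∧ T u < T v ∧ T v < c))
    rcases hsu with ⟨a1, a2, a3⟩ | ⟨a1, a2, a3⟩ | ⟨a1, a2, a3⟩ <;>
      rcases hsv with ⟨b1, b2, b3⟩ | ⟨b1, b2, b3⟩ | ⟨b1, b2, b3⟩ <;>
      simp only [a2, b2, true_and, false_and, and_false, not_true_eq_false,
        not_false_eq_true, and_true, or_false] <;>
      first | omega | (have h8 := h7 a2 b2; omega)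
  let P : Finset (V × V) := univ.filter (fun q => D q.1 q.2 ∧ (q.1 ∉ Z ∧ q.2 ∈ Z ∧ T q.2 < T q.1 ∧ T q.1 < c))
  let Q : Finset (V × V) := univ.filter (fun q => D q.1 q.2 ∧ (q.1 ∈ Z ∧ q.2 ∉ Z ∧ T q.1 < T q.2 ∧ T q.2 < c))
  have hPQ : Q.card ≤ P.card := by
    unfold fwd at hmed
    have e1 : ((univ : Finset (V × V)).filter (fun q => D q.1 q.2 ∧ s q.2 < s q.1)) =
        (((univ : Finset (V × V)).filter (fun q => D q.1 q.2 ∧ T q.2 < T q.1)) \ P) ∪ Q := by
      ext q
      simp only [mem_filter, mem_univ, true_and, mem_union, mem_sdiff, P, Q, key]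
      tauto
    have e2 : Disjoint (((univ : Finset (V × V)).filter (fun q => D q.1 q.2 ∧ T q.2 < T q.1)) \ P) Q := by
      rw [Finset.disjoint_left]
      intro q h1 h2
      simp only [mem_filter, mem_univ, true_and, mem_sdiff, P, Q] at h1 h2
      omega
    have e3 : P ⊆ (univ : Finset (V × V)).filter (fun q => D q.1 q.2 ∧ T q.2 < T q.1) := by
      intro q h1
      simp only [mem_filter, mem_univ, true_and, P] at h1 ⊢
      tauto
    rw [e1, card_union_of_disjoint e2, card_sdiff_of_subset e3] at hmed
    have := card_le_card e3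
    omega
  have eQ : (Q.card : ℝ) =
      ∑ z ∈ Z, ∑ x ∈ (univ : Finset V).filter (fun x => x ∉ Z ∧ T z < T x ∧ T x < c), ar D z x := by
    have : Q = (Z ×ˢ (univ : Finset V)).filter (fun q => D q.1 q.2 ∧ (q.2 ∉ Z ∧ T q.1 < T q.2 ∧ T q.2 < c)) := by
      ext q
      simp only [mem_filter, mem_univ, true_and, mem_product, and_true, Q]
      tauto
    rw [this, card_filter]
    push_cast
    rw [sum_product]
    apply sum_congr rfl
    intro z _
    rw [sum_filter]
    apply sum_congr rfl
    intro x _
    unfold ar
    by_cases h1 : D z x <;> by_cases h2 : (x ∉ Z ∧ T z < T x ∧ T x < c) <;> simp [h1, h2]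
  have eP : (P.card : ℝ) =
      ∑ z ∈ Z, ∑ x ∈ (univ : Finset V).filter (fun x => x ∉ Z ∧ T z < T x ∧ T x < c), ar D x z := by
    have : P = ((univ : Finset V) ×ˢ Z).filter (fun q => D q.1 q.2 ∧ (q.1 ∉ Z ∧ T q.2 < T q.1 ∧ T q.1 < c)) := by
      ext q
      simp only [mem_filter, mem_univ, true_and, mem_product, P]
      tauto
    rw [this, card_filter]
    push_cast
    rw [sum_product_right]
    apply sum_congr rfl
    intro z _
    rw [sum_filter]
    apply sum_congr rfl
    intro x _
    unfold ar
    by_cases h1 : D x z <;> by_cases h2 : (x ∉ Z ∧ T z < T x ∧ T x < c) <;> simp [h1, h2]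
  rw [← eQ, ← eP]
  exact_mod_cast hPQ

/-- moving one vertex to the front -/
theorem F1 (h : Good D T) (v : V) (c : ℕ) :
    ∑ x ∈ (univ : Finset V).filter (fun x => T v < T x ∧ T x < c), ar D v x ≤
    ∑ x ∈ (univ : Finset V).filter (fun x => T v < T x ∧ T x < c), ar D x v := by
  rcases lt_or_ge (T v) c with hv | hv
  · have := h.block c {v} (by simpa using hv)
    have e : (univ : Finset V).filter (fun x => x ∉ ({v} : Finset V) ∧ T v < T x ∧ T x < c) =
        (univ : Finset V).filter (fun x => T v < T x ∧ T x < c) := by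
      ext x
      simp only [mem_filter, mem_univ, true_and, mem_singleton]
      constructor
      · tauto
      · rintro ⟨h1, h2⟩
        refine ⟨?_, h1, h2⟩
        rintro rfl
        omega
    simpa only [sum_singleton, e] using this
  · have e : (univ : Finset V).filter (fun x => T v < T x ∧ T x < c) = ∅ := by
      ext x
      simp only [mem_filter, mem_univ, true_and, notMem_empty, iff_false]
      omega
    rw [e]
    simp

/-- moving one vertex to the end -/
theorem F2 (h : Good D T) (v : V) :
    ∑ x ∈ (univ : Finset V).filter (fun x => T x < T v), ar D x v ≤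
    ∑ x ∈ (univ : Finset V).filter (fun x => T x < T v), ar D v x := by
  have := h.block (T v + 1) ((univ : Finset V).filter (fun x => T x < T v)) (by
    intro z hz
    simp only [mem_filter, mem_univ, true_and] at hz
    omega)
  have e : ∀ z ∈ (univ : Finset V).filter (fun x => T x < T v),
      (univ : Finset V).filter (fun x => x ∉ (univ : Finset V).filter (fun x => T x < T v) ∧
        T z < T x ∧ T x < T v + 1) = {v} := by
    intro z hz
    ext x
    simp only [mem_filter, mem_univ, true_and, mem_singleton, not_lt] at hz ⊢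
    constructor
    · rintro ⟨h1, h2, h3⟩
      exact h.inj (by omega)
    · rintro rfl
      omega
  have l1 : ∑ z ∈ (univ : Finset V).filter (fun x => T x < T v),
      ∑ x ∈ (univ : Finset V).filter (fun x => x ∉ (univ : Finset V).filter (fun x => T x < T v) ∧
        T z < T x ∧ T x < T v + 1), ar D z x =
      ∑ x ∈ (univ : Finset V).filter (fun x => T x < T v), ar D x v :=
    sum_congr rfl (fun z hz => by rw [e z hz, sum_singleton])
  have l2 : ∑ z ∈ (univ : Finset V).filter (fun x => T x < T v),
      ∑ x ∈ (univ : Finset V).filter (fun x => x ∉ (univ : Finset V).filter (fun x => T x < T v) ∧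
        T z < T x ∧ T x < T v + 1), ar D x z =
      ∑ x ∈ (univ : Finset V).filter (fun x => T x < T v), ar D v x :=
    sum_congr rfl (fun z hz => by rw [e z hz, sum_singleton])
  rw [l1, l2] at this
  exact this

end Good

end Pool.Agent.Helper76.SNC
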