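import Pool.Agent.Helper76.SNC.StepF

/-!
# The deterministic theorem for orientations of a graph
-/

namespace Pool.Agent.Helper76.SNC

open Finset

set_option linter.unusedSectionVars false

open Classical in
/-- number of adjacent ordered pairs as a sum -/
lemma dg_eq {V : Type*} {G : SimpleGraph V} {D : V → V → Prop}
    (hor : ∀ u v, G.Adj u v ↔ (D u v ∨ D v u)) (has : ∀ u v, D u v → ¬ D v u) (u v : V) :
    dg D u v = if G.Adj u v then (1 : ℝ) else 0 := by
  unfold dg ar
  by_cases h1 : D u v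
  · have h2 := has u v h1
    have h3 : G.Adj u v := (hor u v).2 (Or.inl h1)
    simp [h1, h2, h3]
  · by_cases h2 : D v u
    · have h3 : G.Adj u v := (hor u v).2 (Or.inr h2)
      simp [h1, h2, h3]
    · have h3 : ¬ G.Adj u v := fun h => by
        rcases (hor u v).1 h with h | h
        · exact h1 h
        · exact h2 h
      simp [h1, h2, h3]

lemma ncard_No {V : Type*} [Fintype V] [DecidableEq V] (D : V → V → Prop) (v : V) :
    {w | D v w}.ncard = (No D v).card := by
  classical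
  rw [← Set.ncard_coe_finset]
  congr 1
  ext w
  simp

lemma ncard_out2 {V : Type*} [Fintype V] [DecidableEq V] {D : V → V → Prop}
    (has : ∀ u v, D u v → ¬ D v u) (v : V) :
    (No D v).card + {w | w ≠ v ∧ ¬ D v w ∧ ∃ u, D v u ∧ D u w}.ncard = (Rs D v).card := by
  classical
  have e : ({w | w ≠ v ∧ ¬ D v w ∧ ∃ u, D v u ∧ D u w} : Set V) =
      ((univ.filter (fun w => w ≠ v ∧ ¬ D v w ∧ ∃ u, D v u ∧ D u w) : Finset V) : Set V) := by
    ext w
    simp
  rw [e, Set.ncard_coe_finset, ← card_union_of_disjoint]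
  · congr 1
    ext w
    simp only [mem_union, mem_No, mem_filter, mem_univ, true_and, mem_Rs]
    constructor
    · rintro (h | ⟨-, -, h⟩)
      · exact Or.inl h
      · exact Or.inr h
    · rintro (h | ⟨u, h1, h2⟩)
      · exact Or.inl h
      · by_cases h3 : D v w
        · exact Or.inl h3
        · refine Or.inr ⟨?_, h3, u, h1, h2⟩
          rintro rfl
          exact has _ _ h1 h2
  · rw [Finset.disjoint_left]
    intro w h1 h2
    simp only [mem_No, mem_filter, mem_univ, true_and] at h1 h2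
    exact h2.2.1 h1

open Classical in
/-- The deterministic theorem, for graphs and their orientations. -/
theorem deterministic_graph {p P θ : ℝ} (hp : 0 < p) (hpP : p ≤ P) (hP1 : P ≤ 1) (hθ : 0 < θ) :
    ∃ ε C : ℝ, 0 < ε ∧ 0 < C ∧ ∀ (V : Type) [Fintype V] [Nonempty V] (G : SimpleGraph V) (m : ℝ),
      1 ≤ m →
      (∀ A B : Finset V,
        p * A.card * B.card - ε * (max (max (A.card : ℝ) B.card) m) ^ 2 ≤
          ∑ a ∈ A, ∑ b ∈ B, (if G.Adj a b then (1 : ℝ) else 0) ∧
        ∑ a ∈ A, ∑ b ∈ B, (if G.Adj a b then (1 : ℝ) else 0) ≤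
          P * A.card * B.card + ε * (max (max (A.card : ℝ) B.card) m) ^ 2) →
      ∀ D : V → V → Prop, (∀ u v, G.Adj u v ↔ (D u v ∨ D v u)) → (∀ u v, D u v → ¬ D v u) →
        (∀ v, C * m ≤ ({w | D v w}.ncard : ℝ)) →
        ∃ v, ((p + P) / P ^ 2 - 1 - θ) * ({w | D v w}.ncard : ℝ) ≤
          ({w | w ≠ v ∧ ¬ D v w ∧ ∃ u, D v u ∧ D u w}.ncard : ℝ) := by
  obtain ⟨ε, C, hε, hC, h⟩ := deterministic hp hpP hP1 hθ
  refine ⟨ε, C, hε, hC, ?_⟩
  intro V _ _ G m hm hJ D hor has hd
  have hP0 : 0 < P := lt_of_lt_of_le hp hpP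
  have hsum : ∀ A B : Finset V, ∑ v ∈ A, ∑ x ∈ B, dg D v x =
      ∑ a ∈ A, ∑ b ∈ B, (if G.Adj a b then (1 : ℝ) else 0) := by
    intro A B
    apply sum_congr rfl
    intro a _
    apply sum_congr rfl
    intro b _
    exact dg_eq hor has a b
  obtain ⟨v, hv⟩ := h V D has m hm (by
      intro A B
      rw [hsum]
      exact (hJ A B).1) (by
      intro A B
      rw [hsum]
      exact (hJ A B).2) (by
      intro v
      rw [← ncard_No]
      exact hd v)
  refine ⟨v, ?_⟩
  have h1 := ncard_out2 has v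
  have h2 : ((No D v).card : ℝ) + ({w | w ≠ v ∧ ¬ D v w ∧ ∃ u, D v u ∧ D u w}.ncard : ℝ) =
      (Rs D v).card := by exact_mod_cast h1
  rw [ncard_No]
  have h3 : (1 + p / P) / P = (p + P) / P ^ 2 := by
    field_simp
    ring
  rw [h3] at hv
  linarith

end Pool.Agent.Helper76.SNC
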