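import Pool.Agent.Helper76.SNC.Order

/-!
# Choice of the scale and locality
-/

namespace Pool.Agent.Helper76.SNC

open Finset

set_option linter.unusedSectionVars false

variable {V : Type*} [Fintype V] [DecidableEq V]

/-- adjacency indicator of the underlying graph -/
noncomputable def dg (D : V → V → Prop) (u v : V) : ℝ := ar D u v + ar D v u

lemma dg_nonneg (D : V → V → Prop) (u v : V) : 0 ≤ dg D u v :=
  add_nonneg (ar_nonneg D u v) (ar_nonneg D v u)

lemma dg_le_one {D : V → V → Prop} (has : ∀ u v, D u v → ¬ D v u) (u v : V) : dg D u v ≤ 1 := by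
  unfold dg ar
  by_cases h1 : D u v
  · have h2 := has u v h1
    simp [h1, h2]
  · by_cases h2 : D v u <;> simp [h1, h2]

/-- Lower density bound for large pairs of sets of the underlying graph. -/
def JL (D : V → V → Prop) (p ε m0 : ℝ) : Prop :=
  ∀ A B : Finset V, p * A.card * B.card - ε * (max (max (A.card : ℝ) B.card) m0) ^ 2 ≤
    ∑ v ∈ A, ∑ x ∈ B, dg D v x

/-- Upper density bound for large pairs of sets of the underlying graph. -/
def JU (D : V → V → Prop) (p ε m0 : ℝ) : Prop :=
  ∀ A B : Finset V, ∑ v ∈ A, ∑ x ∈ B, dg D v x ≤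
    p * A.card * B.card + ε * (max (max (A.card : ℝ) B.card) m0) ^ 2

lemma max_sq_le {m0 m : ℝ} (hm : m0 ≤ m) (A B : Finset V) (hA : (A.card : ℝ) ≤ m)
    (hB : (B.card : ℝ) ≤ m) : (max (max (A.card : ℝ) B.card) m0) ^ 2 ≤ m ^ 2 := by
  have h1 : (0 : ℝ) ≤ max (max (A.card : ℝ) B.card) m0 :=
    le_trans (Nat.cast_nonneg A.card) (le_trans (le_max_left _ _) (le_max_left _ _))
  have h2 : max (max (A.card : ℝ) B.card) m0 ≤ m := max_le (max_le hA hB) hm
  exact pow_le_pow_left₀ h1 h2 2

lemma JL.le {D : V → V → Prop} {p ε m0 : ℝ} (h : JL D p ε m0) (hε : 0 ≤ ε) {m : ℝ} (hm : m0 ≤ m)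
    (A B : Finset V) (hA : (A.card : ℝ) ≤ m) (hB : (B.card : ℝ) ≤ m) :
    p * A.card * B.card - ε * m ^ 2 ≤ ∑ v ∈ A, ∑ x ∈ B, dg D v x := by
  refine le_trans ?_ (h A B)
  have := mul_le_mul_of_nonneg_left (max_sq_le hm A B hA hB) hε
  linarith

lemma JU.le {D : V → V → Prop} {p ε m0 : ℝ} (h : JU D p ε m0) (hε : 0 ≤ ε) {m : ℝ} (hm : m0 ≤ m)
    (A B : Finset V) (hA : (A.card : ℝ) ≤ m) (hB : (B.card : ℝ) ≤ m) :
    ∑ v ∈ A, ∑ x ∈ B, dg D v x ≤ p * A.card * B.card + ε * m ^ 2 := by
  refine (h A B).trans ?_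
  have := mul_le_mul_of_nonneg_left (max_sq_le hm A B hA hB) hε
  linarith

open Classical in
/-- out-neighbourhood -/
noncomputable def No (D : V → V → Prop) (v : V) : Finset V := univ.filter (fun w => D v w)

open Classical in
/-- vertices reachable by one or two arcs -/
noncomputable def Rs (D : V → V → Prop) (v : V) : Finset V :=
  univ.filter (fun w => D v w ∨ ∃ u, D v u ∧ D u w)

@[simp] lemma mem_No {D : V → V → Prop} {v w : V} : w ∈ No D v ↔ D v w := by
  simp [No]

@[simp] lemma mem_Rs {D : V → V → Prop} {v w : V} : w ∈ Rs D v ↔ (D v w ∨ ∃ u, D v u ∧ D u w) := by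
  simp [Rs]

lemma No_subset_Rs {D : V → V → Prop} {v x : V} (h : D v x) : No D x ⊆ Rs D v := by
  intro w hw
  rw [mem_No] at hw
  rw [mem_Rs]
  exact Or.inr ⟨x, h, hw⟩

open Classical in
lemma sum_ar_out (D : V → V → Prop) (v : V) (B : Finset V) :
    ∑ x ∈ B, ar D v x = ((B.filter (fun x => D v x)).card : ℝ) := by
  unfold ar
  rw [Finset.sum_boole]

open Classical in
lemma sum_ar_in (D : V → V → Prop) (v : V) (B : Finset V) :
    ∑ x ∈ B, ar D x v = ((B.filter (fun x => D x v)).card : ℝ) := by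
  unfold ar
  rw [Finset.sum_boole]

lemma sum_ar_univ (D : V → V → Prop) (v : V) : ∑ x, ar D v x = ((No D v).card : ℝ) := by
  rw [sum_ar_out]
  rfl

lemma card_No_lt {D : V → V → Prop} (has : ∀ u v, D u v → ¬ D v u) (v : V) :
    (No D v).card < Fintype.card V := by
  rw [← card_univ]
  apply card_lt_card
  refine ⟨subset_univ _, fun h => ?_⟩
  have h1 := h (mem_univ v)
  rw [mem_No] at h1
  exact has v v h1 h1

/-- degree to the later vertices is at most twice the out-degree to them -/
lemma later_deg {D : V → V → Prop} {T : V → ℕ} (hG : Good D T) (v : V) :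
    ∑ x ∈ (univ : Finset V).filter (fun x => T x < T v), dg D v x ≤
    2 * ∑ x ∈ (univ : Finset V).filter (fun x => T x < T v), ar D v x := by
  have := hG.F2 v
  unfold dg
  rw [sum_add_distrib]
  linarith

set_option maxHeartbeats 1000000 in
theorem stepA {D : V → V → Prop} {T : V → ℕ} (hG : Good D T) (has : ∀ u v, D u v → ¬ D v u)
    [Nonempty V] {p ε m0 η C : ℝ} (hp : 0 < p) (hp1 : p ≤ 1) (hJ : JL D p ε m0) (hm0 : 1 ≤ m0)
    (hη : 0 < η) (hη1 : η ≤ 1 / 2) (hε : 0 ≤ ε) (hε1 : ε ≤ p ^ 2 / 20000)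
    (hC : 100 / p ≤ C * η) (hC1 : 1 ≤ C)
    (hd : ∀ v, C * m0 ≤ (No D v).card)
    (hR : ∀ v, ((Rs D v).card : ℝ) ≤ 2 / p * (No D v).card) :
    ∃ (τ : ℕ) (F : Finset V), C * η * m0 ≤ τ ∧ τ ≤ Fintype.card V ∧ p / 10 * τ ≤ F.card ∧
      ∀ x ∈ F, T x < τ ∧ p / 50 * (τ / η) ≤ (No D x).card ∧ ((No D x).card : ℝ) ≤ 2 / p * (τ / η) := by
  classical
  set n := Fintype.card V with hn
  let Vs : Finset V := univ.filter (fun v => η * (No D v).card < T v)
  let g : ℕ → ℕ := fun t => (Vs.filter (fun v => T v < t)).card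
  let P : ℕ → Prop := fun t => 1 ≤ t ∧ p / 100 * t ≤ g t
  have hCη : 0 < C := by linarith
  -- n is at least 2
  have hn2 : 2 ≤ n := by
    obtain ⟨v⟩ := ‹Nonempty V›
    have h1 := hd v
    have h2 := card_No_lt has v
    have h3 : (1 : ℝ) ≤ (No D v).card := by nlinarith
    have h4 : 1 ≤ (No D v).card := by exact_mod_cast h3
    omega
  have hPn : P n := by
    refine ⟨by omega, ?_⟩
    have h1 : ((univ : Finset V).filter (fun v => (n + 1) / 2 ≤ T v ∧ T v < n)) ⊆
        Vs.filter (fun v => T v < n) := by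
      intro v hv
      simp only [mem_filter, mem_univ, true_and, Vs] at hv ⊢
      refine ⟨?_, hv.2⟩
      have h2 := card_No_lt has v
      rw [← hn] at h2
      have h3 : ((No D v).card : ℝ) < n := by exact_mod_cast h2
      have h4 : n ≤ 2 * T v := by omega
      have h5 : (n : ℝ) ≤ 2 * T v := by exact_mod_cast h4
      have h6 : (0 : ℝ) ≤ (No D v).card := Nat.cast_nonneg _
      nlinarith
    have h2 := card_le_card h1
    rw [hG.card_Ico (s := (n + 1) / 2) hn.le] at h2
    have h3 : n ≤ 4 * g n := by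
      show n ≤ 4 * (Vs.filter (fun v => T v < n)).card
      omega
    have h4 : (n : ℝ) ≤ 4 * g n := by exact_mod_cast h3
    have h5 : (0 : ℝ) ≤ n := Nat.cast_nonneg _
    nlinarith
  have hex : ∃ t, P t := ⟨n, hPn⟩
  let τ := Nat.find hex
  have hτ : P τ := Nat.find_spec hex
  have hτmin : ∀ t < τ, (g t : ℝ) ≤ p / 100 * t := by
    intro t ht
    have h1 := Nat.find_min hex ht
    rcases Nat.eq_zero_or_pos t with h2 | h2
    · subst h2
      have : g 0 = 0 := by
        show (Vs.filter (fun v => T v < 0)).card = 0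
        simp
      rw [this]
      simp
    · by_contra hc
      exact h1 ⟨h2, by linarith⟩
  have hτn : τ ≤ n := Nat.find_le hPn
  have hτ1 : (1 : ℝ) ≤ τ := by exact_mod_cast hτ.1
  have hτg : p / 100 * τ ≤ g τ := hτ.2
  -- lower bound for τ
  have hτbig : C * η * m0 ≤ τ := by
    have h1 : 0 < (g τ : ℝ) := by
      have : 0 < p / 100 * τ := by positivity
      linarith
    have h2 : 0 < g τ := by exact_mod_cast h1
    obtain ⟨v, hv⟩ := card_pos.1 h2
    simp only [mem_filter, mem_univ, true_and, Vs] at hv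
    have h3 := hd v
    have h4 : (T v : ℝ) < τ := by exact_mod_cast hv.2
    have h5 : η * (C * m0) ≤ η * (No D v).card := mul_le_mul_of_nonneg_left h3 hη.le
    have : C * η * m0 = η * (C * m0) := by ring
    rw [this]
    linarith [hv.1]
  have hτ100 : 100 / p ≤ τ := by
    have : C * η * 1 ≤ C * η * m0 := mul_le_mul_of_nonneg_left hm0 (by positivity)
    linarith
  have hτ100' : 100 ≤ p * τ := by
    rw [div_le_iff₀ hp] at hτ100
    linarith
  have hτm0 : m0 ≤ τ := by
    have h1 : 1 ≤ C * η := by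
      have : (1 : ℝ) ≤ 100 / p := by
        rw [le_div_iff₀ hp]
        linarith
      linarith
    nlinarith
  have hτge : (100 : ℝ) ≤ τ := by nlinarith
  -- W
  let t' := τ / 2
  have ht'1 : t' ≤ τ := Nat.div_le_self _ _
  have ht'2 : (τ : ℝ) ≤ 2 * t' + 1 := by
    have : τ ≤ 2 * t' + 1 := by omega
    exact_mod_cast this
  have ht'3 : (2 : ℝ) * t' ≤ τ := by
    have : 2 * t' ≤ τ := by omega
    exact_mod_cast this
  have ht'lt : t' < τ := by
    have := hτ.1
    omega
  let W : Finset V := Vs.filter (fun v => t' ≤ T v ∧ T v < τ)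
  have hWcard : (g τ : ℝ) = g t' + W.card := by
    have : g τ = g t' + W.card := by
      show (Vs.filter (fun v => T v < τ)).card = (Vs.filter (fun v => T v < t')).card +
        (Vs.filter (fun v => t' ≤ T v ∧ T v < τ)).card
      rw [← card_union_of_disjoint]
      · congr 1
        ext v
        simp only [mem_filter, mem_union]
        constructor
        · rintro ⟨h1, h2⟩
          rcases lt_or_ge (T v) t' with h3 | h3
          · exact Or.inl ⟨h1, h3⟩
          · exact Or.inr ⟨h1, h3, h2⟩
        · rintro (⟨h1, h2⟩ | ⟨h1, h2, h3⟩)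
          · exact ⟨h1, by omega⟩
          · exact ⟨h1, h3⟩
      · rw [Finset.disjoint_left]
        intro v h1 h2
        simp only [mem_filter] at h1 h2
        omega
    exact_mod_cast this
  have hWlow : p / 200 * τ ≤ W.card := by
    have h1 := hτmin t' ht'lt
    nlinarith
  have hWup : (W.card : ℝ) ≤ τ := by
    have h1 : W.card ≤ ((univ : Finset V).filter (fun v => T v < τ)).card := by
      apply card_le_card
      intro v hv
      simp only [mem_filter, mem_univ, true_and, W] at hv ⊢
      exact hv.2.2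
    have h2 := hG.card_lt_le τ
    exact_mod_cast h1.trans h2
  let B : Finset V := univ.filter (fun v => T v < t')
  have hBcard : B.card = t' := hG.card_lt (ht'1.trans hτn)
  have hJ1 := hJ.le hε hτm0 W B hWup (by
    rw [hBcard]
    exact_mod_cast ht'1)
  rw [hBcard] at hJ1
  have hWpos : 0 < (W.card : ℝ) := by
    have : 0 < p / 200 * τ := by positivity
    linarith
  have hWne : W.Nonempty := by
    rw [← card_pos]
    exact_mod_cast hWpos
  obtain ⟨vs, hvsW, hvs⟩ : ∃ v ∈ W, p * t' - 200 * ε / p * τ ≤ ∑ x ∈ B, dg D v x := by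
    apply exists_le_of_sum_le hWne
    rw [sum_const, nsmul_eq_mul]
    have h1 := hJ1
    have h2 : ε * τ ^ 2 ≤ W.card * (200 * ε / p * τ) := by
      have h3 : ε * τ ^ 2 = (p / 200 * τ) * (200 * ε / p * τ) := by
        field_simp
      rw [h3]
      apply mul_le_mul_of_nonneg_right hWlow
      positivity
    nlinarith
  have hvs2 : (48 / 100) * p * τ ≤ ∑ x ∈ B, dg D vs x := by
    refine le_trans ?_ hvs
    have h1 : 200 * ε / p ≤ p / 100 := by
      rw [div_le_iff₀ hp]
      nlinarith
    have h2 : 200 * ε / p * τ ≤ p / 100 * τ := mul_le_mul_of_nonneg_right h1 (by positivity)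
    nlinarith
  simp only [mem_filter, mem_univ, true_and, W, Vs] at hvsW
  obtain ⟨hvs3, hvs4, hvs5⟩ := hvsW
  have hvs5' : (T vs : ℝ) < τ := by exact_mod_cast hvs5
  -- X*
  let L : Finset V := univ.filter (fun x => T x < T vs)
  let X : Finset V := L.filter (fun x => D vs x)
  have hX : (24 / 100) * p * τ ≤ X.card := by
    have h1 : ((X.card : ℕ) : ℝ) = ∑ x ∈ L, ar D vs x := (sum_ar_out D vs L).symm
    rw [h1]
    have h2 := later_deg hG vs
    have h3 : ∑ x ∈ B, dg D vs x ≤ ∑ x ∈ L, dg D vs x := by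
      apply sum_le_sum_of_subset_of_nonneg
      · intro x hx
        simp only [mem_filter, mem_univ, true_and, B, L] at hx ⊢
        omega
      · intro x _ _
        exact dg_nonneg D vs x
    have h2' : ∑ x ∈ L, dg D vs x ≤ 2 * ∑ x ∈ L, ar D vs x := h2
    linarith
  -- d(vs) < τ / η
  have hdvs : ((No D vs).card : ℝ) ≤ τ / η := by
    rw [le_div_iff₀ hη]
    linarith
  let F : Finset V := X.filter (fun x => x ∉ Vs ∧ p / 50 * τ ≤ T x)
  refine ⟨τ, F, hτbig, hτn, ?_, ?_⟩
  · -- size of F
    have hgτ : (g τ : ℝ) ≤ p / 100 * τ + 1 := by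
      have h1 := hτmin (τ - 1) (by have := hτ.1; omega)
      have h2 : g τ ≤ g (τ - 1) + 1 := by
        show (Vs.filter (fun v => T v < τ)).card ≤ (Vs.filter (fun v => T v < τ - 1)).card + 1
        have h3 : Vs.filter (fun v => T v < τ) ⊆ Vs.filter (fun v => T v < τ - 1) ∪
            (univ : Finset V).filter (fun v => τ - 1 ≤ T v ∧ T v < τ) := by
          intro v hv
          simp only [mem_filter, mem_union, mem_univ, true_and] at hv ⊢
          rcases lt_or_ge (T v) (τ - 1) with h4 | h4
          · exact Or.inl ⟨hv.1, h4⟩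
          · exact Or.inr ⟨h4, hv.2⟩
        have h4 := (card_le_card h3).trans (card_union_le _ _)
        have h5 := hG.card_Ico_le (τ - 1) τ
        have := hτ.1
        omega
      have h3 : (g τ : ℝ) ≤ g (τ - 1) + 1 := by exact_mod_cast h2
      have h4 : ((τ - 1 : ℕ) : ℝ) ≤ τ := by exact_mod_cast Nat.sub_le _ _
      have h5 : p / 100 * ((τ - 1 : ℕ) : ℝ) ≤ p / 100 * τ :=
        mul_le_mul_of_nonneg_left h4 (by positivity)
      linarith
    have hsub : X ⊆ F ∪ (Vs.filter (fun v => T v < τ) ∪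
        (univ : Finset V).filter (fun v => T v < ⌈p / 50 * τ⌉₊)) := by
      intro x hx
      have hx' := hx
      simp only [X, L, mem_filter, mem_univ, true_and] at hx'
      simp only [mem_union, F, mem_filter, mem_univ, true_and]
      by_cases h1 : x ∈ Vs
      · right; left
        exact ⟨h1, by omega⟩
      · by_cases h2 : p / 50 * τ ≤ T x
        · left
          exact ⟨hx, h1, h2⟩
        · right; right
          push Not at h2
          exact Nat.lt_ceil.2 h2
    have h1 := (card_le_card hsub).trans (card_union_le _ _)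
    have h2 := card_union_le (Vs.filter (fun v => T v < τ))
      ((univ : Finset V).filter (fun v => T v < ⌈p / 50 * τ⌉₊))
    have h3 := hG.card_lt_le ⌈p / 50 * (τ : ℝ)⌉₊
    have h4 : (⌈p / 50 * (τ : ℝ)⌉₊ : ℝ) < p / 50 * τ + 1 := Nat.ceil_lt_add_one (by positivity)
    have h5 : X.card ≤ F.card + (g τ + ⌈p / 50 * (τ : ℝ)⌉₊) := by
      have : (Vs.filter (fun v => T v < τ)).card = g τ := rfl
      omega
    have h6 : (X.card : ℝ) ≤ F.card + (g τ + ⌈p / 50 * (τ : ℝ)⌉₊) := by exact_mod_cast h5
    linarith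
  · intro x hx
    simp only [F, X, L, mem_filter, mem_univ, true_and] at hx
    obtain ⟨⟨hx1, hx2⟩, hx3, hx4⟩ := hx
    refine ⟨by omega, ?_, ?_⟩
    · simp only [Vs, mem_filter, mem_univ, true_and, not_lt] at hx3
      have : p / 50 * (τ / η) = (p / 50 * τ) / η := by ring
      rw [this, div_le_iff₀ hη]
      linarith
    · have h1 : ((No D x).card : ℝ) ≤ (Rs D vs).card := by
        exact_mod_cast card_le_card (No_subset_Rs hx2)
      have h2 := hR vs
      have h3 : 2 / p * ((No D vs).card : ℝ) ≤ 2 / p * (τ / η) :=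
        mul_le_mul_of_nonneg_left hdvs (by positivity)
      linarith

theorem stepB {D : V → V → Prop} {T : V → ℕ} (hG : Good D T) {p ε m0 a : ℝ} (hp : 0 < p) (hp1 : p ≤ 1) (hJ : JL D p ε m0)
    (hε : 0 ≤ ε) (ha : 0 ≤ a) (hR : ∀ v, ((Rs D v).card : ℝ) ≤ 2 / p * (No D v).card)
    (m : ℕ) (hm0 : m0 ≤ m) (hmn : m ≤ Fintype.card V)
    (hm : m = Fintype.card V ∨ 16 / p ^ 3 * a ≤ m) (x : V) (hx : ((No D x).card : ℝ) ≤ 2 / p * a) :
    (((No D x).filter (fun y => m ≤ T y)).card : ℝ) ≤ 2 * ε / p * m := by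
  classical
  rcases hm with hm | hm
  · have : (No D x).filter (fun y => m ≤ T y) = ∅ := by
      ext y
      have := hG.lt y
      simp only [mem_filter, notMem_empty, iff_false, not_and]
      intro _
      omega
    rw [this]
    simp only [card_empty, Nat.cast_zero]
    positivity
  · set Y := (No D x).filter (fun y => m ≤ T y) with hY
    let L : Finset V := univ.filter (fun v => T v < m)
    have hL : L.card = m := hG.card_lt hmn
    have hp3 : 0 < p ^ 3 := by positivity
    have h2p : 2 / p * a ≤ m := by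
      refine le_trans ?_ hm
      apply mul_le_mul_of_nonneg_right _ ha
      rw [div_le_div_iff₀ hp hp3]
      have : p ^ 3 ≤ p := by
        have : p ^ 2 ≤ 1 := by nlinarith
        calc p ^ 3 = p * p ^ 2 := by ring
          _ ≤ p * 1 := mul_le_mul_of_nonneg_left this hp.le
          _ = p := by ring
      nlinarith
    have hYc : (Y.card : ℝ) ≤ m := by
      have : (Y.card : ℝ) ≤ (No D x).card := by exact_mod_cast card_le_card (filter_subset _ _)
      linarith
    have hJ1 := hJ.le hε hm0 Y L hYc (by rw [hL])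
    rw [hL] at hJ1
    have hdeg : ∀ y ∈ Y, ∑ z ∈ L, dg D y z ≤ p / 2 * m := by
      intro y hy
      simp only [hY, mem_filter, mem_No] at hy
      have h1 := later_deg hG y
      have h2 : ∑ z ∈ L, dg D y z ≤
          ∑ z ∈ (univ : Finset V).filter (fun z => T z < T y), dg D y z := by
        apply sum_le_sum_of_subset_of_nonneg
        · intro z hz
          simp only [mem_filter, mem_univ, true_and, L] at hz ⊢
          omega
        · intro z _ _
          exact dg_nonneg D y z
      have h3 : ∑ z ∈ (univ : Finset V).filter (fun z => T z < T y), ar D y z ≤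
          ((No D y).card : ℝ) := by
        rw [← sum_ar_univ]
        apply sum_le_sum_of_subset_of_nonneg (subset_univ _)
        intro z _ _
        exact ar_nonneg D y z
      have h4 : ((No D y).card : ℝ) ≤ (Rs D x).card := by
        exact_mod_cast card_le_card (No_subset_Rs hy.1)
      have h5 := hR x
      have h6 : 2 / p * ((No D x).card : ℝ) ≤ 2 / p * (2 / p * a) :=
        mul_le_mul_of_nonneg_left hx (by positivity)
      have h7 : 2 * (2 / p * (2 / p * a)) = p / 2 * (16 / p ^ 3 * a) := by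
        field_simp
        ring
      have h8 : p / 2 * (16 / p ^ 3 * a) ≤ p / 2 * m := mul_le_mul_of_nonneg_left hm (by positivity)
      linarith
    have hsum : ∑ y ∈ Y, ∑ z ∈ L, dg D y z ≤ Y.card * (p / 2 * m) := by
      have := sum_le_sum hdeg
      rwa [sum_const, nsmul_eq_mul] at this
    have h1 := hJ1
    rcases eq_or_lt_of_le (Nat.cast_nonneg (α := ℝ) m) with hm1 | hm1
    · rw [← hm1]
      rw [← hm1] at hYc
      simpa using hYc
    · have h2 : (Y.card : ℝ) * (p / 2) * m ≤ ε * m * m := by nlinarith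
      have h3 : (Y.card : ℝ) * (p / 2) ≤ ε * m := le_of_mul_le_mul_right h2 hm1
      have h4 : 2 * ε / p * (m : ℝ) = (ε * m) / (p / 2) := by
        field_simp
      rw [h4, le_div_iff₀ (by positivity)]
      exact h3

end Pool.Agent.Helper76.SNC
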