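import Pool.Agent.Helper76.SNC.StepAB

/-!
# Exceptional vertices and the cut
-/

namespace Pool.Agent.Helper76.SNC

open Finset

set_option linter.unusedSectionVars false

variable {V : Type*} [Fintype V] [DecidableEq V]

/-- Sums over pairs of half-graph shape, from bounds on rectangles. -/
theorem half {D : V → V → Prop} {T : V → ℕ} (hG : Good D T) (φ : V → V → ℝ)
    (hφ : ∀ u v, φ u v ≤ 1) (m : ℕ) (δ : ℝ)
    (hJ : ∀ A B : Finset V, (A.card : ℝ) ≤ m → (B.card : ℝ) ≤ m → ∑ v ∈ A, ∑ x ∈ B, φ v x ≤ δ)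
    (S Z : Finset V) (hS : ∀ x ∈ S, T x < m) (hZ : ∀ x ∈ Z, T x < m)
    (c b q : ℕ) (hb : 1 ≤ b) (hbq : m ≤ b * q) :
    ∑ z ∈ Z, ∑ x ∈ S.filter (fun x => T z < T x ∧ T x < c), φ z x ≤ q * δ + b * Z.card := by
  classical
  have hmap : ∀ z ∈ Z, T z / b ∈ range q := by
    intro z hz
    rw [mem_range]
    apply Nat.div_lt_of_lt_mul
    exact lt_of_lt_of_le (hZ z hz) hbq
  have hcardS : ∀ A : Finset V, (∀ x ∈ A, T x < m) → (A.card : ℝ) ≤ m := by
    intro A hA
    have h1 : A ⊆ (univ : Finset V).filter (fun x => T x < m) := by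
      intro x hx
      simp only [mem_filter, mem_univ, true_and]
      exact hA x hx
    exact_mod_cast (card_le_card h1).trans (hG.card_lt_le m)
  rw [← sum_fiberwise_of_maps_to hmap]
  have hkey : ∀ i ∈ range q, ∑ z ∈ Z.filter (fun z => T z / b = i),
      ∑ x ∈ S.filter (fun x => T z < T x ∧ T x < c), φ z x ≤
      δ + b * (Z.filter (fun z => T z / b = i)).card := by
    intro i _
    set Zi := Z.filter (fun z => T z / b = i) with hZi
    let Si : Finset V := S.filter (fun x => b * (i + 1) ≤ T x ∧ T x < c)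
    have hJ1 := hJ Zi Si
      (hcardS _ (fun x hx => hZ x (mem_of_mem_filter x hx)))
      (hcardS _ (fun x hx => hS x (mem_of_mem_filter x hx)))
    have hloc : ∀ z ∈ Zi, ∑ x ∈ S.filter (fun x => T z < T x ∧ T x < c), φ z x ≤
        ∑ x ∈ Si, φ z x + b := by
      intro z hz
      simp only [hZi, mem_filter] at hz
      have hz1 : b * i ≤ T z := by
        rw [← hz.2]
        exact Nat.mul_div_le _ _
      have hz2 : T z < b * (i + 1) := by
        rw [← hz.2]
        exact Nat.lt_mul_div_succ _ (by omega)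
      let R : Finset V := S.filter (fun x => T z < T x ∧ T x < c ∧ T x < b * (i + 1))
      have e1 : S.filter (fun x => T z < T x ∧ T x < c) = Si ∪ R := by
        ext x
        simp only [mem_filter, mem_union, Si, R]
        constructor
        · rintro ⟨h1, h2, h3⟩
          rcases lt_or_ge (T x) (b * (i + 1)) with h4 | h4
          · exact Or.inr ⟨h1, h2, h3, h4⟩
          · exact Or.inl ⟨h1, h4, h3⟩
        · rintro (⟨h1, h2, h3⟩ | ⟨h1, h2, h3, h4⟩)
          · exact ⟨h1, by omega, h3⟩
          · exact ⟨h1, h2, h3⟩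
      have e2 : Disjoint Si R := by
        rw [Finset.disjoint_left]
        intro x h1 h2
        simp only [mem_filter, Si, R] at h1 h2
        omega
      have e3 : (R.card : ℝ) ≤ b := by
        have h1 : R ⊆ (univ : Finset V).filter (fun x => b * i ≤ T x ∧ T x < b * (i + 1)) := by
          intro x hx
          simp only [mem_filter, mem_univ, true_and, R] at hx ⊢
          omega
        have h2 := (card_le_card h1).trans (hG.card_Ico_le (b * i) (b * (i + 1)))
        have h3 : b * (i + 1) - b * i = b := by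
          rw [Nat.mul_succ]
          omega
        rw [h3] at h2
        exact_mod_cast h2
      have e5 : ∑ x ∈ R, φ z x ≤ R.card := by
        have := sum_le_sum (fun x (_ : x ∈ R) => hφ z x)
        simpa using this
      rw [e1, sum_union e2]
      linarith
    have h1 := sum_le_sum hloc
    rw [sum_add_distrib, sum_const, nsmul_eq_mul] at h1
    linarith
  refine (sum_le_sum hkey).trans ?_
  rw [sum_add_distrib, sum_const, nsmul_eq_mul, card_range, ← mul_sum]
  have h1 : ∑ i ∈ range q, ((Z.filter (fun z => T z / b = i)).card : ℝ) = Z.card := by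
    have := card_eq_sum_card_fiberwise hmap
    rw [this]
    push_cast
    rfl
  rw [h1]

open Classical in
/-- The vertices with few in-neighbours in `X`. -/
noncomputable def Zs (D : V → V → Prop) (T : V → ℕ) (m : ℕ) (r : ℝ) (X : Finset V) : Finset V :=
  univ.filter (fun z => T z < m ∧ ∑ x ∈ X, ar D x z < r * m)

open Classical in
/-- The vertices with many in-neighbours in `X`. -/
noncomputable def Us (D : V → V → Prop) (T : V → ℕ) (m : ℕ) (r : ℝ) (X : Finset V) : Finset V :=
  univ.filter (fun z => T z < m ∧ r * m ≤ ∑ x ∈ X, ar D x z)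

set_option maxHeartbeats 1000000 in
theorem stepDE {D : V → V → Prop} {T : V → ℕ} (hG : Good D T) (has : ∀ u v, D u v → ¬ D v u)
    {p P ε m0 r κ : ℝ} (hp : 0 < p) (hpP : p ≤ P) (hP1 : P ≤ 1) (hJ : JL D p ε m0)
    (hJU : JU D P ε m0) (hε : 0 ≤ ε) (m : ℕ)
    (hm0 : m0 ≤ m) (hmn : m ≤ Fintype.card V) (hκ : 0 < κ) (hr : 0 < r) (X : Finset V)
    (hX : ∀ x ∈ X, T x < m)
    (b q : ℕ) (hb : 1 ≤ b) (hbq : m ≤ b * q)
    (h1 : ε + 2 * r ≤ p * κ ^ 2)
    (h2 : 2 * (q * (ε * m ^ 2)) + 2 * (b * m) + 2 * (r * m * m) ≤ κ ^ 2 * m ^ 2)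
    (h3 : 1 ≤ κ * m) :
    ∃ t : ℕ, t ≤ m ∧ (1 + p / P) * ((X.filter (fun x => t ≤ T x)).card : ℝ) + t ≤
      (Us D T m r X).card + 5 / P * (κ * m) := by
  classical
  have hP0 : 0 < P := lt_of_lt_of_le hp hpP
  have hp1 : p ≤ 1 := hpP.trans hP1
  set Z := Zs D T m r X with hZdef
  set U := Us D T m r X with hUdef
  have hmpos : (0 : ℝ) < m := by
    by_contra hc
    push Not at hc
    nlinarith
  have hZm : ∀ z ∈ Z, T z < m ∧ ∑ x ∈ X, ar D x z < r * m := by
    intro z hz
    simpa [hZdef, Zs] using hz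
  have hUm : ∀ z, z ∈ U ↔ (T z < m ∧ r * m ≤ ∑ x ∈ X, ar D x z) := by
    intro z
    simp [hUdef, Us]
  have hZm' : ∀ z, z ∈ Z ↔ (T z < m ∧ ∑ x ∈ X, ar D x z < r * m) := by
    intro z
    simp [hZdef, Zs]
  have hcardm : ∀ A : Finset V, (∀ x ∈ A, T x < m) → (A.card : ℝ) ≤ m := by
    intro A hA
    have h1 : A ⊆ (univ : Finset V).filter (fun x => T x < m) := by
      intro x hx
      simp only [mem_filter, mem_univ, true_and]
      exact hA x hx
    exact_mod_cast (card_le_card h1).trans (hG.card_lt_le m)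
  -- |X ∩ Z| is small
  have hXZ : ((X.filter (fun x => x ∈ Z)).card : ℝ) ≤ κ * m := by
    set A := X.filter (fun x => x ∈ Z) with hA
    have hAm : (A.card : ℝ) ≤ m := hcardm A (fun x hx => hX x (mem_of_mem_filter x hx))
    have hJ1 := hJ.le hε hm0 A A hAm hAm
    have e1 : ∑ v ∈ A, ∑ x ∈ A, dg D v x = 2 * ∑ z ∈ A, ∑ x ∈ A, ar D x z := by
      have : ∑ v ∈ A, ∑ x ∈ A, ar D v x = ∑ z ∈ A, ∑ x ∈ A, ar D x z := sum_comm
      unfold dg
      simp only [sum_add_distrib]
      rw [this]
      ring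
    have e2 : ∑ z ∈ A, ∑ x ∈ A, ar D x z ≤ A.card * (r * m) := by
      have : ∀ z ∈ A, ∑ x ∈ A, ar D x z ≤ r * m := by
        intro z hz
        have hz2 := (hZm z (mem_filter.1 hz).2).2
        refine le_trans ?_ hz2.le
        apply sum_le_sum_of_subset_of_nonneg (filter_subset _ _)
        intro x _ _
        exact ar_nonneg D x z
      have := sum_le_sum this
      rwa [sum_const, nsmul_eq_mul] at this
    have e3 := hJ1
    have e4 : (A.card : ℝ) * (r * m) ≤ m * (r * m) :=
      mul_le_mul_of_nonneg_right hAm (by positivity)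
    have e5 : p * (A.card : ℝ) ^ 2 ≤ p * (κ * m) ^ 2 := by
      have : (ε + 2 * r) * (m : ℝ) ^ 2 ≤ p * κ ^ 2 * m ^ 2 :=
        mul_le_mul_of_nonneg_right h1 (by positivity)
      nlinarith
    have e6 : (A.card : ℝ) ^ 2 ≤ (κ * m) ^ 2 := le_of_mul_le_mul_left e5 hp
    exact le_of_sq_le_sq e6 (by positivity)
  let X' : Finset V := X.filter (fun x => x ∉ Z)
  let G : Finset V := U.filter (fun x => x ∉ X)
  have hX'm : ∀ x ∈ X', T x < m := fun x hx => hX x (mem_of_mem_filter x hx)
  have hGm : ∀ x ∈ G, T x < m := fun x hx => ((hUm x).1 (mem_of_mem_filter x hx)).1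
  let Δ : ℕ → ℝ := fun t => p * ((X'.filter (fun x => t ≤ T x)).card : ℝ) -
    P * ((G.filter (fun x => t ≤ T x)).card : ℝ)
  have hΔm : Δ m = 0 := by
    have e1 : X'.filter (fun x => m ≤ T x) = ∅ := by
      ext x
      simp only [mem_filter, notMem_empty, iff_false, not_and, not_le]
      exact hX'm x
    have e2 : G.filter (fun x => m ≤ T x) = ∅ := by
      ext x
      simp only [mem_filter, notMem_empty, iff_false, not_and, not_le]
      exact hGm x
    simp only [Δ, e1, e2, card_empty, Nat.cast_zero, mul_zero, sub_zero]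
  obtain ⟨h, hh, hmin⟩ := exists_min_image (range (m + 1)) Δ ⟨m, by simp⟩
  rw [mem_range] at hh
  have hΔh : Δ h ≤ 0 := by
    rw [← hΔm]
    exact hmin m (by simp)
  -- the block inequality
  let Z' : Finset V := Z.filter (fun z => T z < h)
  have hblock := hG.block h Z' (fun z hz => (mem_filter.1 hz).2)
  let EX : V → Finset V := fun z => X'.filter (fun x => T z < T x ∧ T x < h)
  let EG : V → Finset V := fun z => G.filter (fun x => T z < T x ∧ T x < h)
  have hE : ∀ z ∈ Z', (univ : Finset V).filter (fun x => x ∉ Z' ∧ T z < T x ∧ T x < h) =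
      EX z ∪ EG z := by
    intro z _
    ext x
    simp only [mem_filter, mem_univ, true_and, mem_union, EX, EG, X', G, Z']
    constructor
    · rintro ⟨k1, k2, k3⟩
      have k4 : x ∉ Z := fun hc => k1 ⟨hc, k3⟩
      by_cases k5 : x ∈ X
      · exact Or.inl ⟨⟨k5, k4⟩, k2, k3⟩
      · right
        refine ⟨⟨?_, k5⟩, k2, k3⟩
        rw [hUm]
        refine ⟨by omega, ?_⟩
        by_contra hc
        push Not at hc
        exact k4 ((hZm' x).2 ⟨by omega, hc⟩)
    · rintro (⟨⟨k1, k2⟩, k3, k4⟩ | ⟨⟨k1, k2⟩, k3, k4⟩)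
      · exact ⟨fun hc => k2 hc.1, k3, k4⟩
      · refine ⟨fun hc => ?_, k3, k4⟩
        have k5 := (hUm x).1 k1
        have k6 := hZm x hc.1
        linarith [k5.2, k6.2]
  have hdisj : ∀ z, Disjoint (EX z) (EG z) := by
    intro z
    rw [Finset.disjoint_left]
    intro x k1 k2
    simp only [mem_filter, EX, EG, X', G] at k1 k2
    tauto
  have hblock2 : ∑ z ∈ Z', (∑ x ∈ EX z, ar D z x + ∑ x ∈ EG z, ar D z x) ≤
      ∑ z ∈ Z', (∑ x ∈ EX z, ar D x z + ∑ x ∈ EG z, ar D x z) := by
    have l1 : ∑ z ∈ Z', ∑ x ∈ (univ : Finset V).filter (fun x => x ∉ Z' ∧ T z < T x ∧ T x < h),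
        ar D z x = ∑ z ∈ Z', (∑ x ∈ EX z, ar D z x + ∑ x ∈ EG z, ar D z x) :=
      sum_congr rfl (fun z hz => by rw [hE z hz, sum_union (hdisj z)])
    have l2 : ∑ z ∈ Z', ∑ x ∈ (univ : Finset V).filter (fun x => x ∉ Z' ∧ T z < T x ∧ T x < h),
        ar D x z = ∑ z ∈ Z', (∑ x ∈ EX z, ar D x z + ∑ x ∈ EG z, ar D x z) :=
      sum_congr rfl (fun z hz => by rw [hE z hz, sum_union (hdisj z)])
    rw [← l1, ← l2]
    exact hblock
  have hin : ∑ z ∈ Z', ∑ x ∈ EX z, ar D x z ≤ Z'.card * (r * m) := by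
    have : ∀ z ∈ Z', ∑ x ∈ EX z, ar D x z ≤ r * m := by
      intro z hz
      have hz2 := (hZm z (mem_filter.1 hz).1).2
      refine le_trans ?_ hz2.le
      apply sum_le_sum_of_subset_of_nonneg
      · intro x hx
        exact (mem_filter.1 (mem_filter.1 hx).1).1
      · intro x _ _
        exact ar_nonneg D x z
    have := sum_le_sum this
    rwa [sum_const, nsmul_eq_mul] at this
  have hout : 0 ≤ ∑ z ∈ Z', ∑ x ∈ EG z, ar D z x :=
    sum_nonneg (fun z _ => sum_nonneg (fun x _ => ar_nonneg D z x))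
  have hZ'm : (Z'.card : ℝ) ≤ m :=
    hcardm Z' (fun x hx => (hZm x (mem_filter.1 hx).1).1)
  have hZ'0 : (0 : ℝ) ≤ Z'.card := Nat.cast_nonneg _
  have hZ'lt : ∀ x ∈ Z', T x < m := fun x hx => (hZm x (mem_filter.1 hx).1).1
  have hhX := half hG (fun u v => p - dg D u v) (fun u v => by linarith [dg_nonneg D u v]) m
    (ε * m ^ 2) (by
      intro A B hA hB
      have := hJ.le hε hm0 A B hA hB
      simp only [sum_sub_distrib, sum_const, nsmul_eq_mul]
      linarith) X' Z' hX'm hZ'lt h b q hb hbq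
  have hhG := half hG (fun u v => dg D u v - P) (fun u v => by linarith [dg_le_one has u v]) m
    (ε * m ^ 2) (by
      intro A B hA hB
      have := hJU.le hε hm0 A B hA hB
      simp only [sum_sub_distrib, sum_const, nsmul_eq_mul]
      linarith) G Z' hGm hZ'lt h b q hb hbq
  have hdgX : ∑ z ∈ Z', ∑ x ∈ EX z, dg D z x =
      ∑ z ∈ Z', ∑ x ∈ EX z, ar D z x + ∑ z ∈ Z', ∑ x ∈ EX z, ar D x z := by
    unfold dg
    simp only [sum_add_distrib]
  have hdgG : ∑ z ∈ Z', ∑ x ∈ EG z, dg D z x =
      ∑ z ∈ Z', ∑ x ∈ EG z, ar D z x + ∑ z ∈ Z', ∑ x ∈ EG z, ar D x z := by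
    unfold dg
    simp only [sum_add_distrib]
  have hmain : ∑ z ∈ Z', (p * ((EX z).card : ℝ) - P * (EG z).card) ≤ κ ^ 2 * m ^ 2 := by
    simp only [sum_sub_distrib, sum_const, nsmul_eq_mul] at hhX hhG
    simp only [sum_add_distrib] at hblock2
    rw [sum_sub_distrib]
    have a3 : (b : ℝ) * Z'.card ≤ b * m := mul_le_mul_of_nonneg_left hZ'm (Nat.cast_nonneg _)
    have a4 : (Z'.card : ℝ) * (r * m) ≤ r * m * m := by
      have := mul_le_mul_of_nonneg_right hZ'm (show (0 : ℝ) ≤ r * m by positivity)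
      linarith
    have a1' : ∑ z ∈ Z', p * ((EX z).card : ℝ) - ∑ z ∈ Z', ∑ x ∈ EX z, dg D z x ≤
        q * (ε * (m : ℝ) ^ 2) + b * Z'.card := by
      refine le_trans (le_of_eq ?_) hhX
      congr 1
      apply sum_congr rfl
      intro z _
      ring
    have a2' : ∑ z ∈ Z', ∑ x ∈ EG z, dg D z x - ∑ z ∈ Z', P * ((EG z).card : ℝ) ≤
        q * (ε * (m : ℝ) ^ 2) + b * Z'.card := by
      refine le_trans (le_of_eq ?_) hhG
      congr 1
      apply sum_congr rfl
      intro z _
      ring
    linarith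
  have hΔdiff : ∀ z ∈ Z', p * ((EX z).card : ℝ) - P * (EG z).card = Δ (T z + 1) - Δ h := by
    intro z hz
    have hzh : T z < h := (mem_filter.1 hz).2
    have gen : ∀ A : Finset V, ((A.filter (fun x => T z + 1 ≤ T x)).card : ℝ) =
        (A.filter (fun x => T z < T x ∧ T x < h)).card + (A.filter (fun x => h ≤ T x)).card := by
      intro A
      have e : A.filter (fun x => T z + 1 ≤ T x) =
          A.filter (fun x => T z < T x ∧ T x < h) ∪ A.filter (fun x => h ≤ T x) := by
        ext x
        simp only [mem_filter, mem_union]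
        constructor
        · rintro ⟨k1, k2⟩
          rcases lt_or_ge (T x) h with k3 | k3
          · exact Or.inl ⟨k1, by omega, k3⟩
          · exact Or.inr ⟨k1, k3⟩
        · rintro (⟨k1, k2, k3⟩ | ⟨k1, k2⟩)
          · exact ⟨k1, by omega⟩
          · exact ⟨k1, by omega⟩
      have d : Disjoint (A.filter (fun x => T z < T x ∧ T x < h)) (A.filter (fun x => h ≤ T x)) := by
        rw [Finset.disjoint_left]
        intro x k1 k2
        simp only [mem_filter] at k1 k2
        omega
      rw [e, card_union_of_disjoint d]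
      push_cast
      rfl
    have g1 := gen X'
    have g2 := gen G
    show p * ((X'.filter (fun x => T z < T x ∧ T x < h)).card : ℝ) -
      P * (G.filter (fun x => T z < T x ∧ T x < h)).card =
      (p * ((X'.filter (fun x => T z + 1 ≤ T x)).card : ℝ) -
        P * (G.filter (fun x => T z + 1 ≤ T x)).card) -
      (p * ((X'.filter (fun x => h ≤ T x)).card : ℝ) - P * (G.filter (fun x => h ≤ T x)).card)
    rw [g1, g2]
    ring
  -- the cut
  have hex : ∃ t, Δ t ≤ Δ h + κ * m := ⟨h, by nlinarith⟩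
  let t := Nat.find hex
  have ht : Δ t ≤ Δ h + κ * m := Nat.find_spec hex
  have hth : t ≤ h := Nat.find_le (by nlinarith)
  have htmin : ∀ s < t, Δ h + κ * m < Δ s := by
    intro s hs
    have := Nat.find_min hex hs
    push Not at this
    exact this
  have hpos : ∀ z ∈ Z', 0 ≤ Δ (T z + 1) - Δ h := by
    intro z hz
    have hzh : T z < h := (mem_filter.1 hz).2
    have := hmin (T z + 1) (by rw [mem_range]; omega)
    linarith
  have hZcut : ((Z.filter (fun z => T z + 1 < t)).card : ℝ) ≤ κ * m := by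
    set Zc := Z.filter (fun z => T z + 1 < t) with hZc
    have hsub : Zc ⊆ Z' := by
      intro z hz
      simp only [hZc, Z', mem_filter] at hz ⊢
      exact ⟨hz.1, by omega⟩
    have b1 : (Zc.card : ℝ) * (κ * m) ≤ ∑ z ∈ Zc, (Δ (T z + 1) - Δ h) := by
      have : ∀ z ∈ Zc, κ * m ≤ Δ (T z + 1) - Δ h := by
        intro z hz
        have := htmin (T z + 1) (mem_filter.1 hz).2
        linarith
      have := sum_le_sum this
      rwa [sum_const, nsmul_eq_mul] at this
    have b2 : ∑ z ∈ Zc, (Δ (T z + 1) - Δ h) ≤ ∑ z ∈ Z', (Δ (T z + 1) - Δ h) :=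
      sum_le_sum_of_subset_of_nonneg hsub (fun z hz _ => hpos z hz)
    have b3 : ∑ z ∈ Z', (p * ((EX z).card : ℝ) - P * (EG z).card) =
        ∑ z ∈ Z', (Δ (T z + 1) - Δ h) := sum_congr rfl hΔdiff
    rw [b3] at hmain
    have b4 : ∑ z ∈ Z', (Δ (T z + 1) - Δ h) ≤ κ ^ 2 * m ^ 2 := hmain
    have b5 : (Zc.card : ℝ) * (κ * m) ≤ (κ * m) * (κ * m) := by
      calc (Zc.card : ℝ) * (κ * m) ≤ κ ^ 2 * m ^ 2 := by linarith
        _ = (κ * m) * (κ * m) := by ring
    exact le_of_mul_le_mul_right b5 (by positivity)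
  have hZcut2 : ((Z.filter (fun z => T z < t)).card : ℝ) ≤ 2 * (κ * m) := by
    have hsub : Z.filter (fun z => T z < t) ⊆ Z.filter (fun z => T z + 1 < t) ∪
        (univ : Finset V).filter (fun z => t - 1 ≤ T z ∧ T z < t) := by
      intro z hz
      simp only [mem_filter, mem_union, mem_univ, true_and] at hz ⊢
      rcases lt_or_ge (T z + 1) t with k | k
      · exact Or.inl ⟨hz.1, k⟩
      · exact Or.inr ⟨by omega, hz.2⟩
    have c1 := (card_le_card hsub).trans (card_union_le _ _)
    have c2 := hG.card_Ico_le (t - 1) t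
    have c3 : (Z.filter (fun z => T z < t)).card ≤ (Z.filter (fun z => T z + 1 < t)).card + 1 := by
      omega
    have c4 : ((Z.filter (fun z => T z < t)).card : ℝ) ≤
        (Z.filter (fun z => T z + 1 < t)).card + 1 := by exact_mod_cast c3
    linarith
  refine ⟨t, by omega, ?_⟩
  -- final count
  have f1 : ((univ : Finset V).filter (fun z => T z < t)).card = t := hG.card_lt (by omega)
  have f2 : (t : ℝ) = (Z.filter (fun z => T z < t)).card + (U.filter (fun z => T z < t)).card := by
    have e : (univ : Finset V).filter (fun z => T z < t) =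
        Z.filter (fun z => T z < t) ∪ U.filter (fun z => T z < t) := by
      ext z
      simp only [mem_filter, mem_union, mem_univ, true_and, hZm', hUm]
      constructor
      · intro k
        rcases lt_or_ge (∑ x ∈ X, ar D x z) (r * m) with k2 | k2
        · exact Or.inl ⟨⟨by omega, k2⟩, k⟩
        · exact Or.inr ⟨⟨by omega, k2⟩, k⟩
      · rintro (k | k) <;> exact k.2
    have d : Disjoint (Z.filter (fun z => T z < t)) (U.filter (fun z => T z < t)) := by
      rw [Finset.disjoint_left]
      intro z k1 k2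
      simp only [mem_filter, hZm', hUm] at k1 k2
      linarith [k1.1.2, k2.1.2]
    rw [e, card_union_of_disjoint d] at f1
    exact_mod_cast f1.symm
  have f3 : (U.card : ℝ) = (U.filter (fun z => T z < t)).card +
      ((X'.filter (fun z => t ≤ T z)).card + (G.filter (fun z => t ≤ T z)).card) := by
    have e : U = U.filter (fun z => T z < t) ∪
        (X'.filter (fun z => t ≤ T z) ∪ G.filter (fun z => t ≤ T z)) := by
      ext z
      simp only [mem_filter, mem_union, X', G]
      constructor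
      · intro k
        rcases lt_or_ge (T z) t with k2 | k2
        · exact Or.inl ⟨k, k2⟩
        · right
          by_cases k3 : z ∈ X
          · left
            refine ⟨⟨k3, ?_⟩, k2⟩
            intro k4
            linarith [((hUm z).1 k).2, ((hZm' z).1 k4).2]
          · right
            exact ⟨⟨k, k3⟩, k2⟩
      · rintro (k | k | k)
        · exact k.1
        · rw [hUm]
          refine ⟨hX z k.1.1, ?_⟩
          by_contra hc
          push Not at hc
          exact k.1.2 ((hZm' z).2 ⟨hX z k.1.1, hc⟩)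
        · exact k.1.1
    have d1 : Disjoint (X'.filter (fun z => t ≤ T z)) (G.filter (fun z => t ≤ T z)) := by
      rw [Finset.disjoint_left]
      intro z k1 k2
      simp only [mem_filter, X', G] at k1 k2
      exact k2.1.2 k1.1.1
    have d2 : Disjoint (U.filter (fun z => T z < t))
        (X'.filter (fun z => t ≤ T z) ∪ G.filter (fun z => t ≤ T z)) := by
      rw [Finset.disjoint_left]
      intro z k1 k2
      simp only [mem_filter, mem_union] at k1 k2
      omega
    have e2 : U.card = (U.filter (fun z => T z < t)).card +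
      ((X'.filter (fun z => t ≤ T z)).card + (G.filter (fun z => t ≤ T z)).card) := by
      rw [← card_union_of_disjoint d1, ← card_union_of_disjoint d2, ← e]
    exact_mod_cast e2
  have f4 : ((X.filter (fun x => t ≤ T x)).card : ℝ) ≤
      (X'.filter (fun z => t ≤ T z)).card + (X.filter (fun x => x ∈ Z)).card := by
    have : X.filter (fun x => t ≤ T x) ⊆ X'.filter (fun z => t ≤ T z) ∪ X.filter (fun x => x ∈ Z) := by
      intro x hx
      simp only [mem_filter, mem_union, X'] at hx ⊢
      by_cases k : x ∈ Z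
      · exact Or.inr ⟨hx.1, k⟩
      · exact Or.inl ⟨⟨hx.1, k⟩, hx.2⟩
    exact_mod_cast (card_le_card this).trans (card_union_le _ _)
  have f5 : p * ((X'.filter (fun z => t ≤ T z)).card : ℝ) - P * (G.filter (fun z => t ≤ T z)).card ≤
      κ * m := by
    have : Δ t ≤ κ * m := by linarith
    exact this
  rw [f3]
  set x' : ℝ := ((X'.filter (fun z => t ≤ T z)).card : ℝ) with hx'
  set g : ℝ := ((G.filter (fun z => t ≤ T z)).card : ℝ) with hg
  have hx'0 : 0 ≤ x' := Nat.cast_nonneg _
  have f6 : p / P * x' ≤ g + κ * m / P := by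
    rw [← sub_le_iff_le_add', le_div_iff₀ hP0]
    have : (p / P * x' - g) * P = p * x' - P * g := by
      field_simp
    linarith
  have f7 : p / P ≤ 1 := by
    rw [div_le_one hP0]
    exact hpP
  have f8 : 0 < p / P := div_pos hp hP0
  have f9 : (1 + p / P) * ((X.filter (fun x => t ≤ T x)).card : ℝ) ≤
      (1 + p / P) * (x' + κ * m) :=
    mul_le_mul_of_nonneg_left (by linarith) (by linarith)
  have hκm0 : 0 < κ * m := by positivity
  have f10 : (1 + p / P) * (κ * m) ≤ 2 * (κ * m) :=
    mul_le_mul_of_nonneg_right (by linarith) hκm0.le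
  have f11 : κ * m ≤ κ * m / P := by
    rw [le_div_iff₀ hP0]
    exact mul_le_of_le_one_right hκm0.le hP1
  have f12 : 5 / P * (κ * m) = 5 * (κ * m / P) := by ring
  rw [f12]
  have f13 : (1 + p / P) * (x' + κ * m) = x' + p / P * x' + (1 + p / P) * (κ * m) := by ring
  rw [f13] at f9
  linarith

end Pool.Agent.Helper76.SNC
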