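import Pool.Agent.Helper76.SNC.StepDE
import Pool.Agent.Helper43.SNHom

/-!
# The averaging argument and the deterministic theorem
-/

namespace Pool.Agent.Helper76.SNC

open Finset

set_option linter.unusedSectionVars false

variable {V : Type*} [Fintype V] [DecidableEq V]

/-- Reachable sets are large on average. -/
theorem sum_Rs_ge {D : V → V → Prop} {T : V → ℕ} (hG : Good D T) (m : ℕ) (r ξ : ℝ) (hξ : 0 ≤ ξ) (F X : Finset V)
    (hF : ∀ z, r * m ≤ ∑ x ∈ X, ar D x z →
      ∀ A ⊆ F, (∀ v ∈ A, ¬ ∃ x, D v x ∧ D x z) → (A.card : ℝ) ≤ ξ * F.card) :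
    (F.card : ℝ) * (Us D T m r X).card - ξ * F.card * m ≤ ∑ v ∈ F, ((Rs D v).card : ℝ) := by
  classical
  set U := Us D T m r X with hUdef
  have hUm : ∀ z, z ∈ U ↔ (T z < m ∧ r * m ≤ ∑ x ∈ X, ar D x z) := by
    intro z
    simp [hUdef, Us]
  have hUc : (U.card : ℝ) ≤ m := by
    have h1 : U ⊆ (univ : Finset V).filter (fun x => T x < m) := by
      intro x hx
      simp only [mem_filter, mem_univ, true_and]
      exact ((hUm x).1 hx).1
    exact_mod_cast (card_le_card h1).trans (hG.card_lt_le m)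
  have h1 : ∀ v ∈ F, (U.card : ℝ) - ((U.filter (fun z => z ∉ Rs D v)).card : ℝ) ≤
      ((Rs D v).card : ℝ) := by
    intro v _
    have e : U ⊆ U.filter (fun z => z ∉ Rs D v) ∪ Rs D v := by
      intro z hz
      simp only [mem_union, mem_filter]
      by_cases k : z ∈ Rs D v
      · exact Or.inr k
      · exact Or.inl ⟨hz, k⟩
    have := (card_le_card e).trans (card_union_le _ _)
    have h2 : (U.card : ℝ) ≤ (U.filter (fun z => z ∉ Rs D v)).card + (Rs D v).card := by
      exact_mod_cast this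
    linarith
  have h2 := sum_le_sum h1
  rw [sum_sub_distrib, sum_const, nsmul_eq_mul] at h2
  have h3 : ∑ v ∈ F, ((U.filter (fun z => z ∉ Rs D v)).card : ℝ) =
      ∑ z ∈ U, ((F.filter (fun v => z ∉ Rs D v)).card : ℝ) := by
    simp only [card_filter]
    push_cast
    rw [sum_comm]
  have h4 : ∀ z ∈ U, ((F.filter (fun v => z ∉ Rs D v)).card : ℝ) ≤ ξ * F.card := by
    intro z hz
    apply hF z ((hUm z).1 hz).2 _ (filter_subset _ _)
    intro v hv hc
    exact (mem_filter.1 hv).2 (mem_Rs.2 (Or.inr hc))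
  have h5 := sum_le_sum h4
  rw [sum_const, nsmul_eq_mul] at h5
  have h6 : (U.card : ℝ) * (ξ * F.card) ≤ m * (ξ * F.card) :=
    mul_le_mul_of_nonneg_right hUc (by positivity)
  rw [h3] at h2
  linarith

/-- Out-degrees are small on average. -/
theorem sum_No_le {D : V → V → Prop} {T : V → ℕ} (hG : Good D T) (has : ∀ u v, D u v → ¬ D v u)
    {p ε m0 ρ σ : ℝ} (hJ : JU D p ε m0) (hε : 0 ≤ ε) (m τ t : ℕ)
    (hm0 : m0 ≤ m) (hτ : τ ≤ m) (ht : t ≤ m) (hmn : m ≤ Fintype.card V) (F X : Finset V)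
    (hFτ : ∀ v ∈ F, T v < τ) (hX : ∀ x ∈ X, T x < m)
    (hout : ∀ v ∈ F, (((No D v).filter (fun y => m ≤ T y)).card : ℝ) ≤ σ)
    (hXF : ∀ x, T x < m → x ∉ X → ∑ v ∈ F, ar D v x ≤ ρ * F.card) (hρ : 0 ≤ ρ) :
    ∑ v ∈ F, ((No D v).card : ℝ) ≤
      F.card * (p * (X.filter (fun x => t ≤ T x)).card + p / 2 * t) +
      F.card * (σ + ρ * m + τ) + 3 / 2 * (ε * m ^ 2) := by
  classical
  set Xp := X.filter (fun x => t ≤ T x) with hXp
  let L : Finset V := univ.filter (fun x => T x < m)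
  let P : Finset V := univ.filter (fun x => T x < t)
  let O : Finset V := univ.filter (fun x => m ≤ T x)
  let Lx : Finset V := L.filter (fun x => x ∉ X)
  have hcardm : ∀ A : Finset V, (∀ x ∈ A, T x < m) → (A.card : ℝ) ≤ m := by
    intro A hA
    have h1 : A ⊆ (univ : Finset V).filter (fun x => T x < m) := by
      intro x hx
      simp only [mem_filter, mem_univ, true_and]
      exact hA x hx
    exact_mod_cast (card_le_card h1).trans (hG.card_lt_le m)
  have hFm : (F.card : ℝ) ≤ m := hcardm F (fun v hv => lt_of_lt_of_le (hFτ v hv) hτ)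
  have hXpm : (Xp.card : ℝ) ≤ m := hcardm Xp (fun v hv => hX v (mem_of_mem_filter v hv))
  have hPt : P.card = t := hG.card_lt (ht.trans hmn)
  have hF0 : (0 : ℝ) ≤ F.card := Nat.cast_nonneg _
  -- pointwise
  have h1 : ∀ v ∈ F, ((No D v).card : ℝ) ≤ σ + ∑ x ∈ Lx, ar D v x + ∑ x ∈ Xp, dg D v x +
      (τ + 1 / 2 * ∑ x ∈ P, dg D v x) := by
    intro v hv
    have e1 : ((No D v).card : ℝ) ≤ ∑ x ∈ O, ar D v x + ∑ x ∈ Lx, ar D v x +
        ∑ x ∈ Xp, ar D v x + ∑ x ∈ P, ar D v x := by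
      rw [← sum_ar_univ]
      have c : (univ : Finset V) ⊆ ((O ∪ Lx) ∪ Xp) ∪ P := by
        intro x _
        simp only [mem_union, mem_filter, mem_univ, true_and, O, Lx, L, P, hXp]
        by_cases k1 : m ≤ T x
        · exact Or.inl (Or.inl (Or.inl k1))
        · by_cases k2 : T x < t
          · exact Or.inr k2
          · by_cases k3 : x ∈ X
            · exact Or.inl (Or.inr ⟨k3, by omega⟩)
            · exact Or.inl (Or.inl (Or.inr ⟨by omega, k3⟩))
      have mono : ∀ A B : Finset V, ∑ x ∈ A ∪ B, ar D v x ≤ ∑ x ∈ A, ar D v x + ∑ x ∈ B, ar D v x := by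
        intro A B
        rw [← sum_union_inter]
        have : 0 ≤ ∑ x ∈ A ∩ B, ar D v x := sum_nonneg (fun x _ => ar_nonneg D v x)
        linarith
      have c1 : ∑ x, ar D v x ≤ ∑ x ∈ ((O ∪ Lx) ∪ Xp) ∪ P, ar D v x :=
        sum_le_sum_of_subset_of_nonneg c (fun x _ _ => ar_nonneg D v x)
      have c2 := mono ((O ∪ Lx) ∪ Xp) P
      have c3 := mono (O ∪ Lx) Xp
      have c4 := mono O Lx
      linarith
    have e2 : ∑ x ∈ O, ar D v x ≤ σ := by
      have := hout v hv
      rw [sum_ar_out]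
      have e : O.filter (fun x => D v x) = (No D v).filter (fun y => m ≤ T y) := by
        ext x
        simp only [mem_filter, mem_univ, true_and, O, mem_No]
        tauto
      rw [e]
      exact this
    have e3 : ∑ x ∈ Xp, ar D v x ≤ ∑ x ∈ Xp, dg D v x := by
      apply sum_le_sum
      intro x _
      unfold dg
      linarith [ar_nonneg D x v]
    have e4 : ∑ x ∈ P, ar D v x ≤ τ + 1 / 2 * ∑ x ∈ P, dg D v x := by
      have f1 := hG.F1 v t
      let Q : Finset V := univ.filter (fun x => T v < T x ∧ T x < t)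
      let R : Finset V := univ.filter (fun x => T x < T v)
      have g1 : ∑ x ∈ P, ar D v x ≤ ∑ x ∈ Q, ar D v x + ∑ x ∈ R, ar D v x := by
        have c : P ⊆ insert v (Q ∪ R) := by
          intro x hx
          simp only [mem_filter, mem_univ, true_and, P, Q, R, mem_insert, mem_union] at hx ⊢
          rcases lt_trichotomy (T x) (T v) with k | k | k
          · exact Or.inr (Or.inr k)
          · exact Or.inl (hG.inj k)
          · exact Or.inr (Or.inl ⟨k, hx⟩)
        have c1 : ∑ x ∈ P, ar D v x ≤ ∑ x ∈ insert v (Q ∪ R), ar D v x :=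
          sum_le_sum_of_subset_of_nonneg c (fun x _ _ => ar_nonneg D v x)
        have hvv : ar D v v = 0 := by
          unfold ar
          rw [if_neg]
          intro hc
          exact has v v hc hc
        have hvn : v ∉ Q ∪ R := by
          simp [Q, R]
        have hd : Disjoint Q R := by
          rw [Finset.disjoint_left]
          intro x k1 k2
          simp only [mem_filter, mem_univ, true_and, Q, R] at k1 k2
          omega
        rw [sum_insert hvn, hvv, sum_union hd] at c1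
        linarith
      have g2 : ∑ x ∈ R, ar D v x ≤ τ := by
        have c1 := sum_le_sum (fun x (_ : x ∈ R) => ar_le_one D v x)
        have c2 := hG.card_lt_le (T v)
        have c3 : (R.card : ℝ) ≤ τ := by
          have := hFτ v hv
          have : R.card ≤ τ := c2.trans (by omega)
          exact_mod_cast this
        simp only [sum_const, nsmul_eq_mul, mul_one] at c1
        linarith
      have g3 : 2 * ∑ x ∈ Q, ar D v x ≤ ∑ x ∈ Q, dg D v x := by
        unfold dg
        rw [sum_add_distrib]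
        have : ∑ x ∈ Q, ar D v x ≤ ∑ x ∈ Q, ar D x v := f1
        linarith
      have g4 : ∑ x ∈ Q, dg D v x ≤ ∑ x ∈ P, dg D v x := by
        apply sum_le_sum_of_subset_of_nonneg
        · intro x hx
          simp only [mem_filter, mem_univ, true_and, P, Q] at hx ⊢
          exact hx.2
        · intro x _ _
          exact dg_nonneg D v x
      linarith
    linarith
  have h2 := sum_le_sum h1
  simp only [sum_add_distrib, sum_const, nsmul_eq_mul] at h2
  rw [← mul_sum] at h2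
  have h3 : ∑ v ∈ F, ∑ x ∈ Lx, ar D v x ≤ F.card * (ρ * m) := by
    rw [sum_comm]
    have c1 : ∀ x ∈ Lx, ∑ v ∈ F, ar D v x ≤ ρ * F.card := by
      intro x hx
      simp only [mem_filter, mem_univ, true_and, L, Lx] at hx
      exact hXF x hx.1 hx.2
    have c2 := sum_le_sum c1
    rw [sum_const, nsmul_eq_mul] at c2
    have c3 : (Lx.card : ℝ) ≤ m := hcardm Lx (fun x hx => by
      simp only [mem_filter, mem_univ, true_and, L, Lx] at hx
      exact hx.1)
    have c4 : (Lx.card : ℝ) * (ρ * F.card) ≤ m * (ρ * F.card) :=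
      mul_le_mul_of_nonneg_right c3 (by positivity)
    linarith
  have h4 := hJ.le hε hm0 F Xp hFm hXpm
  have h5 := hJ.le hε hm0 F P hFm (by rw [hPt]; exact_mod_cast ht)
  rw [hPt] at h5
  linarith

set_option maxHeartbeats 2000000 in
/-- **Deterministic theorem.** -/
theorem deterministic {p P θ : ℝ} (hp : 0 < p) (hpP : p ≤ P) (hP1 : P ≤ 1) (hθ : 0 < θ) :
    ∃ ε C : ℝ, 0 < ε ∧ 0 < C ∧ ∀ (V : Type) [Fintype V] [DecidableEq V] [Nonempty V]
      (D : V → V → Prop) (_ : ∀ u v, D u v → ¬ D v u) (m0 : ℝ) (_ : 1 ≤ m0) (_ : JL D p ε m0)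
      (_ : JU D P ε m0) (_ : ∀ v, C * m0 ≤ (No D v).card),
      ∃ v, ((1 + p / P) / P - θ) * (No D v).card ≤ ((Rs D v).card : ℝ) := by
  classical
  -- reduce to θ ≤ 1
  wlog hθ1 : θ ≤ 1 generalizing θ with H
  · obtain ⟨ε, C, hε, hC, h⟩ := H (θ := 1) one_pos le_rfl
    refine ⟨ε, C, hε, hC, ?_⟩
    intro V _ _ _ D has m0 hm0 hJ hJU hd
    obtain ⟨v, hv⟩ := h V D has m0 hm0 hJ hJU hd
    refine ⟨v, le_trans ?_ hv⟩
    apply mul_le_mul_of_nonneg_right _ (Nat.cast_nonneg _)
    push Not at hθ1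
    linarith
  have hP0 : 0 < P := lt_of_lt_of_le hp hpP
  have hp1 : p ≤ 1 := hpP.trans hP1
  have hpP1 : p / P ≤ 1 := by
    rw [div_le_one hP0]
    exact hpP
  have hpP0 : 0 < p / P := div_pos hp hP0
  -- parameters
  set K : ℝ := 16 / p ^ 3 + 1 with hK
  have hK1 : 1 ≤ K := by
    have : 0 ≤ 16 / p ^ 3 := by positivity
    linarith
  set η : ℝ := θ * p ^ 2 / 400 with hη
  have hη0 : 0 < η := by positivity
  have hp2 : p ^ 2 ≤ 1 := by nlinarith
  have hη1 : η ≤ 1 / 2 := by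
    have : θ * p ^ 2 ≤ 1 := by
      have : θ * p ^ 2 ≤ 1 * 1 := mul_le_mul hθ1 hp2 (by positivity) (by norm_num)
      linarith
    rw [hη]
    linarith
  set κ : ℝ := θ * p ^ 2 / (1000 * K) with hκ
  have hκ0 : 0 < κ := by positivity
  have hκ1 : κ ≤ 1 := by
    rw [hκ, div_le_one (by positivity)]
    have : θ * p ^ 2 ≤ 1 := by
      have : θ * p ^ 2 ≤ 1 * 1 := mul_le_mul hθ1 hp2 (by positivity) (by norm_num)
      linarith
    nlinarith
  set r : ℝ := p * κ ^ 2 / 8 with hr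
  have hr0 : 0 < r := by positivity
  set ρs : ℝ := p * κ / 2 with hρs
  have hρs0 : 0 < ρs := by positivity
  obtain ⟨N, hN⟩ : ∃ N : ℕ, 1 < N * r := by
    obtain ⟨N, hN⟩ := exists_nat_gt (1 / r)
    refine ⟨N, ?_⟩
    rwa [div_lt_iff₀ hr0] at hN
  obtain ⟨q, hq⟩ : ∃ q : ℕ, 16 / (p * κ ^ 2) < q := exists_nat_gt _
  have hq0 : (0 : ℝ) < q := lt_trans (by positivity) hq
  have hqpos : 0 < q := by exact_mod_cast hq0
  have hq' : 16 < q * (p * κ ^ 2) := by
    rwa [div_lt_iff₀ (by positivity)] at hq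
  set γ : ℝ := κ ^ N * (p / 10 * η / K) with hγ
  have hγ0 : 0 < γ := by positivity
  set ε : ℝ := min (p ^ 2 / 20000) (min (p * κ ^ 2 / (8 * q)) (min (p ^ 2 * κ / 4) (p * γ * κ / 3)))
    with hεdef
  have hε0 : 0 < ε := by
    rw [hεdef]
    refine lt_min (by positivity) (lt_min (by positivity) (lt_min (by positivity) (by positivity)))
  have hε1 : ε ≤ p ^ 2 / 20000 := min_le_left _ _
  have hε2 : ε ≤ p * κ ^ 2 / (8 * q) := (min_le_right _ _).trans (min_le_left _ _)
  have hε3 : ε ≤ p ^ 2 * κ / 4 :=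
    (min_le_right _ _).trans ((min_le_right _ _).trans (min_le_left _ _))
  have hε4 : ε ≤ p * γ * κ / 3 :=
    (min_le_right _ _).trans ((min_le_right _ _).trans (min_le_right _ _))
  set C : ℝ := 100 / (p * η) + 50 / p * (q + 1 + 1 / κ) + 1 with hCdef
  have hCpos : 0 < C := by positivity
  have hC1 : 1 ≤ C := by
    have : 0 ≤ 100 / (p * η) + 50 / p * (q + 1 + 1 / κ) := by positivity
    linarith
  have hC2 : 100 / p ≤ C * η := by
    have h1 : 100 / (p * η) ≤ C := by
      have : 0 ≤ 50 / p * (q + 1 + 1 / κ) := by positivity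
      linarith
    have h2 := mul_le_mul_of_nonneg_right h1 hη0.le
    have h3 : 100 / (p * η) * η = 100 / p := by
      field_simp
    linarith
  have hC3 : 50 / p * (q + 1 + 1 / κ) ≤ C := by
    have : 0 ≤ 100 / (p * η) := by positivity
    linarith
  refine ⟨ε, C, hε0, hCpos, ?_⟩
  intro V _ _ _ D has m0 hm0 hJ hJU hd
  by_contra hcon
  push Not at hcon
  -- the ratio
  set R0 : ℝ := (1 + p / P) / P with hR0
  have hR0P : R0 * P = 1 + p / P := by
    rw [hR0]
    field_simp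
  have hR0le : R0 ≤ 2 / p := by
    rw [hR0, div_le_div_iff₀ hP0 hp]
    have e1 : (1 + p / P) * p ≤ 2 * p := mul_le_mul_of_nonneg_right (by linarith) hp.le
    have e2 : 2 * p ≤ 2 * P := by linarith
    linarith
  have hR00 : 0 < R0 := by positivity
  have hR : ∀ v, ((Rs D v).card : ℝ) ≤ 2 / p * (No D v).card := by
    intro v
    have h1 := hcon v
    have h2 : (R0 - θ) * ((No D v).card : ℝ) ≤ 2 / p * (No D v).card :=
      mul_le_mul_of_nonneg_right (by linarith) (Nat.cast_nonneg _)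
    linarith
  obtain ⟨T, hG⟩ := exists_good D
  obtain ⟨τ, F1, hτ1, hτn, hF1c, hF1⟩ := stepA hG has hp hp1 hJ hm0 hη0 hη1 hε0.le hε1 hC2 hC1 hd hR
  set a : ℝ := τ / η with ha
  have hτpos : (0 : ℝ) < τ := lt_of_lt_of_le (by positivity) hτ1
  have ha0 : 0 < a := by positivity
  have hτa : (τ : ℝ) = η * a := by
    rw [ha]
    field_simp
  have h16 : 1 ≤ 16 / p ^ 3 := by
    rw [le_div_iff₀ (by positivity)]
    have : p ^ 3 ≤ 1 := pow_le_one₀ hp.le hp1
    linarith
  -- the window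
  set m : ℕ := min (Fintype.card V) ⌈16 / p ^ 3 * a⌉₊ with hm
  have hmn : m ≤ Fintype.card V := min_le_left _ _
  have hF1ne : F1.Nonempty := by
    rw [← card_pos]
    have : 0 < (F1.card : ℝ) := lt_of_lt_of_le (by positivity) hF1c
    exact_mod_cast this
  have hma : (m : ℝ) ≤ K * a := by
    have h1 : (m : ℝ) ≤ ⌈16 / p ^ 3 * a⌉₊ := by exact_mod_cast min_le_right _ _
    have h2 : (⌈16 / p ^ 3 * a⌉₊ : ℝ) < 16 / p ^ 3 * a + 1 := Nat.ceil_lt_add_one (by positivity)
    have h3 : 1 ≤ a := by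
      rw [ha, le_div_iff₀ hη0]
      have : C * η * 1 ≤ C * η * m0 := mul_le_mul_of_nonneg_left hm0 (by positivity)
      have : 1 * η ≤ C * η := mul_le_mul_of_nonneg_right hC1 hη0.le
      linarith
    rw [hK]
    linarith
  have ham : p / 50 * a ≤ m := by
    rw [hm]
    rcases min_choice (Fintype.card V) ⌈16 / p ^ 3 * a⌉₊ with h | h
    · rw [h]
      obtain ⟨x, hx⟩ := hF1ne
      have h1 := (hF1 x hx).2.1
      have h2 : ((No D x).card : ℝ) ≤ Fintype.card V := by exact_mod_cast card_le_univ _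
      linarith
    · rw [h]
      have h1 : 16 / p ^ 3 * a ≤ ⌈16 / p ^ 3 * a⌉₊ := Nat.le_ceil _
      have h2 : p / 50 ≤ 16 / p ^ 3 := by linarith
      have h3 := mul_le_mul_of_nonneg_right h2 ha0.le
      linarith
  have hmor : m = Fintype.card V ∨ 16 / p ^ 3 * a ≤ m := by
    rw [hm]
    rcases min_choice (Fintype.card V) ⌈16 / p ^ 3 * a⌉₊ with h | h
    · left; exact h
    · right
      rw [h]
      exact Nat.le_ceil _
  -- a ≥ C m0
  have haC : C * m0 ≤ a := by
    rw [ha, le_div_iff₀ hη0]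
    linarith
  have hmbig : (q + 1 + 1 / κ) * m0 ≤ m := by
    have h1 : p / 50 * (C * m0) ≤ p / 50 * a := mul_le_mul_of_nonneg_left haC (by positivity)
    have h2 : 50 / p * (q + 1 + 1 / κ) * m0 ≤ C * m0 := mul_le_mul_of_nonneg_right hC3 (by linarith)
    have h3 : p / 50 * (50 / p * (q + 1 + 1 / κ) * m0) ≤ p / 50 * (C * m0) :=
      mul_le_mul_of_nonneg_left h2 (by positivity)
    have h4 : p / 50 * (50 / p * (q + 1 + 1 / κ) * m0) = (q + 1 + 1 / κ) * m0 := by
      field_simp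
    linarith
  have hκinv : 0 < 1 / κ := by positivity
  have hm0m : m0 ≤ m := by
    refine le_trans ?_ hmbig
    have : 1 * m0 ≤ (q + 1 + 1 / κ) * m0 := mul_le_mul_of_nonneg_right (by linarith) (by linarith)
    linarith
  have hmq : (q : ℝ) + 1 + 1 / κ ≤ m := by
    refine le_trans ?_ hmbig
    have : (q + 1 + 1 / κ) * 1 ≤ (q + 1 + 1 / κ) * m0 :=
      mul_le_mul_of_nonneg_left hm0 (by positivity)
    linarith
  have hκm : 1 ≤ κ * m := by
    have h1 : 1 / κ ≤ m := by linarith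
    rw [div_le_iff₀ hκ0] at h1
    linarith
  have hmpos : (0 : ℝ) < m := by linarith
  have hτm : τ ≤ m := by
    rw [hm]
    apply le_min hτn
    have h1 : (τ : ℝ) ≤ 16 / p ^ 3 * a := by
      rw [hτa]
      apply mul_le_mul_of_nonneg_right _ ha0.le
      linarith
    have h2 : (τ : ℝ) ≤ ⌈16 / p ^ 3 * a⌉₊ := h1.trans (Nat.le_ceil _)
    exact_mod_cast h2
  -- homogenise
  let L : Finset V := univ.filter (fun x => T x < m)
  have hLc : (L.card : ℝ) ≤ m := by exact_mod_cast hG.card_lt_le m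
  obtain ⟨F, hFF1, hFne, hFc, X, hXL, hXF, hzF⟩ := Pool.Agent.Helper43.SNHom.homogenise D L F1 hF1ne
    m hmpos hLc ρs κ r hρs0 hκ0 hκ1 hr0 N hN
  have hX : ∀ x ∈ X, T x < m := by
    intro x hx
    have := hXL hx
    simpa [L] using this
  -- the cut
  set b : ℕ := m / q + 1 with hb
  have hbq : m ≤ b * q := by
    rw [hb]
    have h := Nat.lt_div_mul_add (a := m) hqpos
    rw [Nat.add_mul, one_mul]
    omega
  have hbm : (b : ℝ) * q ≤ 2 * m := by
    have h1 : m / q * q ≤ m := Nat.div_mul_le_self _ _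
    have h2 : ((m / q : ℕ) : ℝ) * q ≤ m := by exact_mod_cast h1
    rw [hb]
    push_cast
    linarith
  have hDE1 : ε + 2 * r ≤ p * κ ^ 2 := by
    have : ε ≤ p * κ ^ 2 / 8 := by
      refine hε2.trans ?_
      apply div_le_div_of_nonneg_left (by positivity) (by norm_num)
      have : (1 : ℝ) ≤ q := by exact_mod_cast hqpos
      linarith
    have h3 : 0 < p * κ ^ 2 := by positivity
    rw [hr]
    linarith
  have hDE2 : 2 * (q * (ε * (m : ℝ) ^ 2)) + 2 * (b * m) + 2 * (r * m * m) ≤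
      κ ^ 2 * m ^ 2 := by
    have h1 : q * ε ≤ p * κ ^ 2 / 8 := by
      have := mul_le_mul_of_nonneg_left hε2 hq0.le
      have e : (q : ℝ) * (p * κ ^ 2 / (8 * q)) = p * κ ^ 2 / 8 := by
        field_simp
      linarith
    have h2 : (b : ℝ) ≤ p * κ ^ 2 / 8 * m := by
      have e1 : (b : ℝ) * 16 ≤ b * (q * (p * κ ^ 2)) :=
        mul_le_mul_of_nonneg_left hq'.le (Nat.cast_nonneg _)
      have e2 : (b : ℝ) * (q * (p * κ ^ 2)) = (b * q) * (p * κ ^ 2) := by ring
      have e3 : ((b : ℝ) * q) * (p * κ ^ 2) ≤ (2 * m) * (p * κ ^ 2) :=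
        mul_le_mul_of_nonneg_right hbm (by positivity)
      linarith
    have h3 : (q * ε) * (m : ℝ) ^ 2 ≤ p * κ ^ 2 / 8 * m ^ 2 :=
      mul_le_mul_of_nonneg_right h1 (by positivity)
    have h4 : (b : ℝ) * m ≤ p * κ ^ 2 / 8 * m * m := mul_le_mul_of_nonneg_right h2 hmpos.le
    have h5 : 0 < p * κ ^ 2 * (m : ℝ) ^ 2 := by positivity
    have h6 : r * (m : ℝ) * m = 1 / 8 * (p * κ ^ 2 * m ^ 2) := by
      rw [hr]
      ring
    have h7 : p * κ ^ 2 / 8 * (m : ℝ) * m = 1 / 8 * (p * κ ^ 2 * m ^ 2) := by ring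
    have h8 : p * κ ^ 2 / 8 * (m : ℝ) ^ 2 = 1 / 8 * (p * κ ^ 2 * m ^ 2) := by ring
    have h9 : (q : ℝ) * (ε * (m : ℝ) ^ 2) = (q * ε) * (m : ℝ) ^ 2 := by ring
    have h10 : p * (κ ^ 2 * (m : ℝ) ^ 2) ≤ 1 * (κ ^ 2 * (m : ℝ) ^ 2) :=
      mul_le_mul_of_nonneg_right hp1 (by positivity)
    linarith
  obtain ⟨t, htm, hcut⟩ := stepDE hG has hp hpP hP1 hJ hJU hε0.le m hm0m hmn hκ0 hr0 X hX b q
    (by rw [hb]; exact Nat.le_add_left 1 _) hbq hDE1 hDE2 hκm
  -- averages
  have hsumR := sum_Rs_ge hG m r κ hκ0.le F X (by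
    intro z hz A hA hA2
    refine le_trans ?_ (hzF z hz)
    have : A ⊆ F.filter (fun v => ¬ ∃ x, D v x ∧ D x z) := by
      intro v hv
      exact mem_filter.2 ⟨hA hv, hA2 v hv⟩
    exact_mod_cast card_le_card this)
  have hsumN := sum_No_le hG has (ρ := ρs) (σ := 2 * ε / p * m) hJU hε0.le m τ t hm0m hτm htm
    hmn F X (fun v hv => (hF1 v (hFF1 hv)).1) hX
    (fun v hv => stepB hG hp hp1 hJ hε0.le ha0.le hR m hm0m hmn hmor v (hF1 v (hFF1 hv)).2.2)
    (fun x hx hxX => hXF x (by simpa [L] using hx) hxX) hρs0.le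
  set S : ℝ := ∑ v ∈ F, ((No D v).card : ℝ) with hS
  set W : ℝ := ((X.filter (fun x => t ≤ T x)).card : ℝ) with hW
  set f : ℝ := (F.card : ℝ) with hf
  set u : ℝ := ((Us D T m r X).card : ℝ) with hu
  have hfpos : 0 < f := by
    rw [hf]
    exact_mod_cast hFne.card_pos
  have ht0 : (0 : ℝ) ≤ t := Nat.cast_nonneg _
  have hSlow : f * (p / 50 * a) ≤ S := by
    rw [hS, hf]
    have : ∀ v ∈ F, p / 50 * a ≤ ((No D v).card : ℝ) := fun v hv => (hF1 v (hFF1 hv)).2.1
    have := sum_le_sum this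
    rwa [sum_const, nsmul_eq_mul] at this
  have hRS : ∑ v ∈ F, ((Rs D v).card : ℝ) ≤ (R0 - θ) * S := by
    rw [hS, mul_sum]
    exact sum_le_sum (fun v _ => (hcon v).le)
  -- |F| ≥ γ m
  have hfγ : γ * m ≤ f := by
    have h1 : p / 10 * η / K * m ≤ F1.card := by
      refine le_trans ?_ hF1c
      have e1 : p / 10 * η / K * m ≤ p / 10 * η / K * (K * a) :=
        mul_le_mul_of_nonneg_left hma (by positivity)
      have e2 : p / 10 * η / K * (K * a) = p / 10 * τ := by
        rw [hτa]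
        field_simp
      linarith
    have h2 := mul_le_mul_of_nonneg_left h1 (show (0 : ℝ) ≤ κ ^ N by positivity)
    rw [hγ]
    calc κ ^ N * (p / 10 * η / K) * m = κ ^ N * (p / 10 * η / K * m) := by ring
      _ ≤ κ ^ N * F1.card := h2
      _ ≤ f := hFc
  -- error terms
  have hb0 : 0 ≤ 2 * ε / p * (m : ℝ) := by positivity
  have herr1 : R0 * (2 * ε / p * m) ≤ κ * m := by
    have h1 : R0 * (2 * ε / p * m) ≤ 2 / p * (2 * ε / p * m) :=
      mul_le_mul_of_nonneg_right hR0le hb0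
    have : 2 / p * (2 * ε / p) ≤ κ := by
      have e : 2 / p * (2 * ε / p) = 4 * ε / p ^ 2 := by
        field_simp
        ring
      rw [e, div_le_iff₀ (by positivity)]
      linarith
    calc R0 * (2 * ε / p * m) ≤ (2 / p * (2 * ε / p)) * m := by linarith
      _ ≤ κ * m := mul_le_mul_of_nonneg_right this hmpos.le
  have herr2 : R0 * (ρs * m) ≤ κ * m := by
    have h1 : R0 * (ρs * m) ≤ 2 / p * (ρs * m) :=
      mul_le_mul_of_nonneg_right hR0le (mul_nonneg hρs0.le hmpos.le)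
    have h2 : 2 / p * (ρs * m) = κ * m := by
      rw [hρs]
      field_simp
    linarith
  have herr3 : R0 * (3 / 2 * (ε * (m : ℝ) ^ 2)) ≤ κ * m * f := by
    have h1 : R0 * (3 / 2 * (ε * (m : ℝ) ^ 2)) ≤ 2 / p * (3 / 2 * (ε * (m : ℝ) ^ 2)) :=
      mul_le_mul_of_nonneg_right hR0le (by positivity)
    have e1 : 3 * ε / p ≤ γ * κ := by
      rw [div_le_iff₀ hp]
      linarith
    have e2 : 2 / p * (3 / 2 * (ε * (m : ℝ) ^ 2)) = (3 * ε / p) * m * m := by
      field_simp
    rw [e2] at h1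
    have e3 : (3 * ε / p) * m * m ≤ (γ * κ) * m * m := by
      apply mul_le_mul_of_nonneg_right _ hmpos.le
      exact mul_le_mul_of_nonneg_right e1 hmpos.le
    have e4 : (γ * κ) * m * m = κ * m * (γ * m) := by ring
    have e5 : κ * m * (γ * m) ≤ κ * m * f := mul_le_mul_of_nonneg_left hfγ (by positivity)
    linarith
  have herr4 : R0 * (τ : ℝ) ≤ θ * p / 200 * a := by
    have h1 : R0 * (τ : ℝ) ≤ 2 / p * τ := mul_le_mul_of_nonneg_right hR0le hτpos.le
    have h2 : 2 / p * (τ : ℝ) = θ * p / 200 * a := by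
      rw [hτa, hη]
      field_simp
      ring
    linarith
  -- R0 S
  have hS2 : R0 * S ≤ f * ((1 + p / P) * W + t) + f * (κ * m + κ * m + θ * p / 200 * a) +
      κ * m * f := by
    have h1 := mul_le_mul_of_nonneg_left hsumN hR00.le
    have h2 : R0 * (f * (P * W + P / 2 * t) + f * (2 * ε / p * m + ρs * m + τ) +
        3 / 2 * (ε * (m : ℝ) ^ 2)) = f * ((R0 * P) * W + (R0 * P) / 2 * t) +
        f * (R0 * (2 * ε / p * m) + R0 * (ρs * m) + R0 * τ) +
        R0 * (3 / 2 * (ε * (m : ℝ) ^ 2)) := by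
      ring
    rw [h2, hR0P] at h1
    have h3 : f * (R0 * (2 * ε / p * m) + R0 * (ρs * m) + R0 * τ) ≤
        f * (κ * m + κ * m + θ * p / 200 * a) :=
      mul_le_mul_of_nonneg_left (by linarith) hfpos.le
    have h4 : f * ((1 + p / P) * W + (1 + p / P) / 2 * t) ≤ f * ((1 + p / P) * W + t) := by
      apply mul_le_mul_of_nonneg_left _ hfpos.le
      have : (1 + p / P) / 2 * t ≤ 1 * t := mul_le_mul_of_nonneg_right (by linarith) ht0
      linarith
    linarith
  have hcut2 : f * ((1 + p / P) * W + t) ≤ f * (u + 5 / P * (κ * m)) :=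
    mul_le_mul_of_nonneg_left hcut hfpos.le
  have h5P : 5 / P ≤ 5 / p := div_le_div_of_nonneg_left (by norm_num) hp hpP
  have h1p : 1 ≤ 1 / p := by
    rw [le_div_iff₀ hp]
    linarith
  have hκm0 : 0 < κ * m := by linarith
  have hκmf : 0 < κ * m * f := mul_pos hκm0 hfpos
  have hfin : θ * S ≤ 9 * (1 / p * (κ * m * f)) + f * (θ * p / 200 * a) := by
    have e1 : θ * S = R0 * S - (R0 - θ) * S := by ring
    have e2 : f * (u + 5 / P * (κ * m)) = f * u + 5 / P * (κ * m * f) := by ring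
    have e3 : f * (κ * m + κ * m + θ * p / 200 * a) = 2 * (κ * m * f) + f * (θ * p / 200 * a) := by
      ring
    have e5 : κ * f * (m : ℝ) = κ * m * f := by ring
    have e6 : 5 / P * (κ * m * f) ≤ 5 / p * (κ * m * f) :=
      mul_le_mul_of_nonneg_right h5P hκmf.le
    have e7 : 5 / p * (κ * m * f) = 5 * (1 / p * (κ * m * f)) := by ring
    have e8 : 1 * (κ * m * f) ≤ 1 / p * (κ * m * f) := mul_le_mul_of_nonneg_right h1p hκmf.le
    rw [e1]
    rw [e2] at hcut2
    rw [e3] at hS2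
    rw [e5] at hsumR
    linarith
  have hθS : θ * (f * (p / 50 * a)) ≤ θ * S := mul_le_mul_of_nonneg_left hSlow hθ.le
  have hκK : 1 / p * (κ * m * f) ≤ 1 / 1000 * (f * (θ * p * a)) := by
    have h1 : κ * m ≤ κ * (K * a) := mul_le_mul_of_nonneg_left hma hκ0.le
    have h2 : κ * (K * a) = θ * p ^ 2 / 1000 * a := by
      rw [hκ]
      field_simp
    have h3 : κ * m * f ≤ θ * p ^ 2 / 1000 * a * f := by
      rw [← h2]
      exact mul_le_mul_of_nonneg_right h1 hfpos.le
    have h4 : 1 / p * (κ * m * f) ≤ 1 / p * (θ * p ^ 2 / 1000 * a * f) :=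
      mul_le_mul_of_nonneg_left h3 (by positivity)
    have h5 : 1 / p * (θ * p ^ 2 / 1000 * a * f) = 1 / 1000 * (f * (θ * p * a)) := by
      field_simp
    linarith
  have hpos : 0 < f * (θ * p * a) := mul_pos hfpos (mul_pos (mul_pos hθ hp) ha0)
  have g1 : θ * (f * (p / 50 * a)) = 1 / 50 * (f * (θ * p * a)) := by ring
  have g2 : f * (θ * p / 200 * a) = 1 / 200 * (f * (θ * p * a)) := by ring
  linarith

end Pool.Agent.Helper76.SNC
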